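import Pool.Agent.H92.CN.Chk

/-!
# OPN: open, closed, `G_δ` and Borel sets of the model are sets of the ground model
-/

set_option autoImplicit false

namespace CN

open BV PK HM PM HC

variable {B : Type} [CompleteBooleanAlgebra B]

theorem agree_symm {M : Type 1} {E : M → M → Prop} {n x y : M} (h : Agree E n x y) :
    Agree E n y x := fun i hi => (h i hi).symm

theorem agree_trans {M : Type 1} {E : M → M → Prop} {n x y z : M} (h : Agree E n x y)
    (h' : Agree E n y z) : Agree E n x z := fun i hi => (h i hi).trans (h' i hi)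

theorem hv_isOpenR (x : BSet B) : HV fun U : UF B => IsOpenR (MU.E U) (om U) (MU.mk U x) := by
  unfold IsOpenR
  refine HV.and (HV.all fun z => (HV.mem z x).imp (hv_isReal z)) (HV.all fun z =>
    (HV.mem z x).imp (HV.ex fun n => (hv_om n).and (HV.all fun y => (hv_isReal y).imp
      ((hv_agree n z y).imp (HV.mem y x)))))

theorem hv_isClosedR (x : BSet B) : HV fun U : UF B => IsClosedR (MU.E U) (om U) (MU.mk U x) := by
  unfold IsClosedR
  refine HV.and (HV.all fun z => (HV.mem z x).imp (hv_isReal z)) (HV.all fun z =>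
    (hv_isReal z).imp (HV.imp (HV.all fun n => (hv_om n).imp (HV.ex fun y => (HV.mem y x).and
      (hv_agree n z y))) (HV.mem z x)))

section Emb

variable {P : Type} [Preorder P] {e : P → B}

/-- open sets of the ground model are open -/
theorem isOpenR_chkS (hs : SClosed P) (he : DenseEmb P B e) {A : Set (ℕ → Bool)} (hA : IsOpen A)
    (V : UF B) : IsOpenR (MU.E V) (om V) (MU.mk V (chkS B A)) := by
  refine ⟨isReal_chkS V A, ?_⟩
  refine ball_chkS (B := B) (A := A) (Q := fun V x => ∃ n, MU.E V n (om V) ∧ ∀ y, IsReal (MU.E V) (om V) y →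
    Agree (MU.E V) n x y → MU.E V y (MU.mk V (chkS B A))) (fun x => ?_) ⊤ ?_ V V.top_mem
  · exact HV.ex fun n => (hv_om n).and (HV.all fun y => (hv_isReal y).imp
      ((hv_agree n x y).imp (HV.mem y _)))
  · intro V _ x hx
    obtain ⟨n, hn⟩ := isOpen_iff_ag.1 hA x hx
    refine ⟨nn V n, E_nn_om V n, ?_⟩
    refine ball_real hs he (Q := fun V y => Agree (MU.E V) (nn V n) (MU.mk V (snm x)) y →
      MU.E V y (MU.mk V (chkS B A))) (fun y => (hv_agree (chk B (n : Ordinal.{0})) (snm x) y).imp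
        (HV.mem y _)) ⊤ ?_ V V.top_mem
    intro V _ y hxy
    exact (E_chkS V A y).2 (hn y ((agree_snm V n x y).1 hxy))

/-- open sets are, densely, sets of the ground model -/
theorem open_chk (hs : SClosed P) (he : DenseEmb P B e) (x : BSet B) {p : P}
    (hp : ∀ V : UF B, e p ∈ V → IsOpenR (MU.E V) (om V) (MU.mk V x)) :
    ∃ q, q ≤ p ∧ ∃ A : Set (ℕ → Bool), IsOpen A ∧
      ∀ V : UF B, e q ∈ V → MU.mk V x = MU.mk V (chkS B A) := by
  obtain ⟨q, hq, X, hX⟩ := decide_all hs he (κ := ℕ × Finset ℕ)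
    (Q := fun z V => ∀ y, IsReal (MU.E V) (om V) y →
      Agree (MU.E V) (nn V z.1) (MU.mk V (snm (fs z.2))) y → MU.E V y (MU.mk V x))
    (fun z => HV.all fun y => (hv_isReal y).imp
      ((hv_agree (chk B (z.1 : Ordinal.{0})) (snm (fs z.2)) y).imp (HV.mem y x))) p
  refine ⟨q, hq, {a | ∃ z : ℕ × Finset ℕ, X z = true ∧ Ag z.1 (fs z.2) a}, ?_, ?_⟩
  · rw [isOpen_iff_ag]
    rintro a ⟨z, hz, ha⟩
    exact ⟨z.1, fun y hy => ⟨z, hz, ha.trans hy⟩⟩
  · refine eq_of_snm hs he fun V hV => ?_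
    have hO := hp V (V.mem_of_le hV (he.mono _ _ hq))
    refine ⟨hO.1, isReal_chkS V _, fun a => ?_⟩
    rw [E_chkS]
    constructor
    · intro ha
      obtain ⟨n, hn, h1⟩ := hO.2 _ ha
      refine ball_w (Q := fun V n => (∀ y, IsReal (MU.E V) (om V) y →
        Agree (MU.E V) n (MU.mk V (snm a)) y → MU.E V y (MU.mk V x)) →
        a ∈ {a | ∃ z : ℕ × Finset ℕ, X z = true ∧ Ag z.1 (fs z.2) a})
        (fun n => HV.imp (HV.all fun y => (hv_isReal y).imp ((hv_agree n (snm a) y).imp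
          (HV.mem y x))) (HV.const _)) (e q) ?_ V hV n hn h1
      intro V hV n h1
      refine ⟨(n, cut n a), (hX (n, cut n a) V hV).1 fun y hy hay => h1 y hy ?_, ag_cut n a⟩
      exact agree_trans ((agree_snm V n a (fs (cut n a))).2 (ag_cut n a).symm) hay
    · rintro ⟨z, hz, ha⟩
      exact (hX z V hV).2 hz _ (isReal_snm V a) ((agree_snm V z.1 _ _).2 ha)

/-- closed sets are, densely, sets of the ground model -/
theorem closed_chk (hs : SClosed P) (he : DenseEmb P B e) (x : BSet B) {p : P}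
    (hp : ∀ V : UF B, e p ∈ V → IsClosedR (MU.E V) (om V) (MU.mk V x)) :
    ∃ q, q ≤ p ∧ ∃ A : Set (ℕ → Bool), IsClosed A ∧
      ∀ V : UF B, e q ∈ V → MU.mk V x = MU.mk V (chkS B A) := by
  obtain ⟨q, hq, X, hX⟩ := decide_all hs he (κ := ℕ × Finset ℕ)
    (Q := fun z V => ∃ y, MU.E V y (MU.mk V x) ∧
      Agree (MU.E V) (nn V z.1) (MU.mk V (snm (fs z.2))) y)
    (fun z => HV.ex fun y => (HV.mem y x).and
      (hv_agree (chk B (z.1 : Ordinal.{0})) (snm (fs z.2)) y)) p
  refine ⟨q, hq, {a | ∀ z : ℕ × Finset ℕ, Ag z.1 (fs z.2) a → X z = true}, ?_, ?_⟩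
  · rw [isClosed_iff_ag]
    intro a ha z hz
    obtain ⟨y, hy, hay⟩ := ha z.1
    exact hy z (hz.trans hay)
  · refine eq_of_snm hs he fun V hV => ?_
    have hO := hp V (V.mem_of_le hV (he.mono _ _ hq))
    refine ⟨hO.1, isReal_chkS V _, fun a => ?_⟩
    rw [E_chkS]
    constructor
    · intro ha z hz
      exact (hX z V hV).1 ⟨_, ha, (agree_snm V z.1 _ _).2 hz⟩
    · intro ha
      refine hO.2 _ (isReal_snm V a) ?_
      refine ball_w (Q := fun V n => ∃ y, MU.E V y (MU.mk V x) ∧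
        Agree (MU.E V) n (MU.mk V (snm a)) y)
        (fun n => HV.ex fun y => (HV.mem y x).and (hv_agree n (snm a) y)) (e q) ?_ V hV
      intro V hV n
      obtain ⟨y, hy, h1⟩ := (hX (n, cut n a) V hV).2 (ha (n, cut n a) (ag_cut n a))
      exact ⟨y, hy, agree_trans ((agree_snm V n a (fs (cut n a))).2 (ag_cut n a).symm) h1⟩

/-! ## Sequences -/

/-- name of a sequence of sets of reals of the ground model -/
noncomputable def seqS (B : Type) [CompleteBooleanAlgebra B] (F : ℕ → Set (ℕ → Bool)) : BSet B :=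
  BSet.mk ℕ (fun n => opr (chk B (n : Ordinal.{0})) (chkS B (F n))) fun _ => ⊤

theorem app_seqS (V : UF B) (F : ℕ → Set (ℕ → Bool)) (n : ℕ) :
    App (MU.E V) (MU.mk V (seqS B F)) (nn V n) (MU.mk V (chkS B (F n))) :=
  app_mk (X := fun n : ℕ => chk B (n : Ordinal.{0})) (Y := fun n : ℕ => chkS B (F n))
    (a := fun _ => ⊤) V n V.top_mem

theorem ball_seqS {F : ℕ → Set (ℕ → Bool)} {Q : ∀ U : UF B, MU U → MU U → Prop}
    (hQ : ∀ x y : BSet B, HV fun U => Q U (MU.mk U x) (MU.mk U y))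
    (h : ∀ (V : UF B) n, Q V (nn V n) (MU.mk V (chkS B (F n)))) (V : UF B) (x y : MU V)
    (hxy : App (MU.E V) (MU.mk V (seqS B F)) x y) : Q V x y :=
  ball_app (X := fun n : ℕ => chk B (n : Ordinal.{0})) (Y := fun n : ℕ => chkS B (F n))
    (a := fun _ => ⊤) hQ ⊤ (fun V _ n _ => h V n) V V.top_mem x y hxy

theorem isSeq_seqS (V : UF B) (F : ℕ → Set (ℕ → Bool)) :
    HC.IsSeq (MU.E V) (om V) (MU.mk V (seqS B F)) := by
  intro n _ a a' ha ha'
  refine ball_seqS (Q := fun V n a => ∀ a', App (MU.E V) (MU.mk V (seqS B F)) n a' → a = a')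
    (fun x y => HV.all fun z => (hv_app _ x z).imp (HV.eq y z)) ?_ V n a ha a' ha'
  intro V n a' ha'
  refine ball_seqS (Q := fun V x y => nn V n = x → MU.mk V (chkS B (F n)) = y)
    (fun x y => (HV.eq _ x).imp (HV.eq _ y)) ?_ V (nn V n) a' ha' rfl
  intro V m hm
  rw [nn_inj V hm]

/-- `G_δ` sets of the ground model are `G_δ` -/
theorem isGdelta_chkS (hs : SClosed P) (he : DenseEmb P B e) {A : Set (ℕ → Bool)} (hA : IsGδ A)
    (V : UF B) : IsGdelta (MU.E V) (om V) (MU.mk V (chkS B A)) := by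
  obtain ⟨F, hF, rfl⟩ := hA.eq_iInter_nat
  refine ⟨MU.mk V (seqS B F), isSeq_seqS V F, ?_, ?_⟩
  · intro n a _ ha
    exact ball_seqS (Q := fun V n a => IsOpenR (MU.E V) (om V) a)
      (fun x y => hv_isOpenR y) (fun V n => isOpenR_chkS hs he (hF n) V) V n a ha
  · intro x
    constructor
    · intro hx
      refine ⟨isReal_chkS V _ x hx, fun n a _ ha => ?_⟩
      refine ball_seqS (Q := fun V n a => ∀ x, MU.E V x (MU.mk V (chkS B (⋂ n, F n))) → MU.E V x a)
        (fun n a => HV.all fun x => (HV.mem x _).imp (HV.mem x a)) ?_ V n a ha x hx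
      intro V n
      exact (sub_chkS V).2 (Set.iInter_subset F n)
    · rintro ⟨hx, h⟩
      refine ball_real hs he (Q := fun V x => (∀ n a, MU.E V n (om V) →
        App (MU.E V) (MU.mk V (seqS B F)) n a → MU.E V x a) →
        MU.E V x (MU.mk V (chkS B (⋂ n, F n)))) (fun x => ?_) ⊤ ?_ V V.top_mem x hx h
      · exact HV.imp (HV.all fun n => HV.all fun a => (hv_om n).imp ((hv_app _ n a).imp
          (HV.mem x a))) (HV.mem x _)
      · intro V _ x h
        rw [E_chkS, Set.mem_iInter]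
        intro n
        exact (E_chkS V (F n) x).1 (h _ _ (E_nn_om V n) (app_seqS V F n))

/-! ## Borel sets -/

/-- name of the family of the Borel sets of the ground model -/
noncomputable def borN (B : Type) [CompleteBooleanAlgebra B] : BSet B :=
  BSet.mk {A : Set (ℕ → Bool) // MeasurableSet A} (fun A => chkS B A.1) fun _ => ⊤

theorem E_borN (V : UF B) {A : Set (ℕ → Bool)} (hA : MeasurableSet A) :
    MU.E V (MU.mk V (chkS B A)) (MU.mk V (borN B)) :=
  mem_mk (A := fun A : {A : Set (ℕ → Bool) // MeasurableSet A} => chkS B A.1) (a := fun _ => ⊤)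
    V ⟨A, hA⟩ V.top_mem

theorem ball_borN {Q : ∀ U : UF B, MU U → Prop}
    (hQ : ∀ x : BSet B, HV fun U => Q U (MU.mk U x)) (b : B)
    (h : ∀ V : UF B, b ∈ V → ∀ A : Set (ℕ → Bool), MeasurableSet A → Q V (MU.mk V (chkS B A)))
    (U : UF B) (hb : b ∈ U) (m : MU U) (hm : MU.E U m (MU.mk U (borN B))) : Q U m :=
  ball_mk hQ b (fun V hV i _ => h V hV i.1 i.2) U hb m hm

theorem exists_of_mem (he : DenseEmb P B e) {ι : Type} {A : ι → BSet B} {a : ι → B}
    {Q : ∀ U : UF B, MU U → Prop} (hQ : ∀ x : BSet B, HV fun U => Q U (MU.mk U x)) {p : P}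
    (h : ∀ V : UF B, e p ∈ V → ∃ m, MU.E V m (MU.mk V (BSet.mk ι A a)) ∧ Q V m) :
    ∃ q, q ≤ p ∧ ∃ i, ∀ V : UF B, e q ∈ V → a i ∈ V ∧ Q V (MU.mk V (A i)) := by
  choose c hc using fun i => hQ (A i)
  have h1 : e p ≤ ⨆ i, a i ⊓ c i := by
    refine UF.le_of_forall fun V hV => ?_
    by_contra hcon
    obtain ⟨m, hm, hmQ⟩ := h V hV
    refine ball_mk (Q := fun V m => ¬ Q V m) (fun x => (hQ x).not) (⨆ i, a i ⊓ c i)ᶜ ?_ V
      (V.compl_mem_iff.2 hcon) m hm hmQ
    intro U hU i hi hQi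
    refine U.compl_mem_iff.1 hU (U.mem_of_le (U.inf_mem hi ((hc i U).2 hQi)) ?_)
    exact le_iSup (fun i => a i ⊓ c i) i
  obtain ⟨q, hq, i, hi⟩ := he.exists_le_of_le_iSup h1
  refine ⟨q, hq, i, fun V hV => ?_⟩
  have h2 := V.mem_of_le hV hi
  rw [UF.inf_mem_iff] at h2
  exact ⟨h2.1, (hc i V).1 h2.2⟩

theorem borN_open (hs : SClosed P) (he : DenseEmb P B e) (V : UF B) (x : MU V)
    (hx : IsOpenR (MU.E V) (om V) x) : MU.E V x (MU.mk V (borN B)) := by
  obtain ⟨x, rfl⟩ := MU.mk_surj V x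
  refine of_dense_top he (Q := fun V => IsOpenR (MU.E V) (om V) (MU.mk V x) →
    MU.E V (MU.mk V x) (MU.mk V (borN B))) ((hv_isOpenR x).imp (HV.mem _ _)) (fun p => ?_) V hx
  obtain ⟨q, hq, h1 | h1⟩ := exists_decide he (hv_isOpenR x) p
  · obtain ⟨r, hr, A, hA, h2⟩ := open_chk hs he x h1
    refine ⟨r, hr.trans hq, fun V hV _ => ?_⟩
    rw [h2 V hV]
    exact E_borN V hA.measurableSet
  · exact ⟨q, hq, fun V hV h2 => absurd h2 (h1 V hV)⟩

theorem borN_compl (hs : SClosed P) (he : DenseEmb P B e) (V : UF B) (x y : MU V)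
    (hx : MU.E V x (MU.mk V (borN B)))
    (hy : ∀ z, MU.E V z y ↔ IsReal (MU.E V) (om V) z ∧ ¬ MU.E V z x) :
    MU.E V y (MU.mk V (borN B)) := by
  refine ball_borN (Q := fun V x => ∀ y, (∀ z, MU.E V z y ↔ IsReal (MU.E V) (om V) z ∧
    ¬ MU.E V z x) → MU.E V y (MU.mk V (borN B))) (fun x => ?_) ⊤ ?_ V V.top_mem x hx y hy
  · exact HV.all fun y => HV.imp (HV.all fun z => (HV.mem z y).iff ((hv_isReal z).and
      (HV.mem z x).not)) (HV.mem y _)
  · intro V _ A hA y hy
    obtain ⟨y, rfl⟩ := MU.mk_surj V y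
    obtain ⟨b, hb⟩ : HV fun V : UF B => ∀ z, MU.E V z (MU.mk V y) ↔
        IsReal (MU.E V) (om V) z ∧ ¬ MU.E V z (MU.mk V (chkS B A)) :=
      HV.all fun z => (HV.mem z y).iff ((hv_isReal z).and (HV.mem z _).not)
    have h1 : MU.mk V y = MU.mk V (chkS B Aᶜ) := by
      refine eq_of_snm hs he (b := b) (fun V hV => ?_) V ((hb V).2 hy)
      have h2 := (hb V).1 hV
      refine ⟨fun m hm => ((h2 m).1 hm).1, isReal_chkS V _, fun X => ?_⟩
      rw [h2, E_chkS, E_chkS]
      exact ⟨fun h => h.2, fun h => ⟨isReal_snm V X, h⟩⟩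
    rw [h1]
    exact E_borN V hA.compl

theorem hv_isSeq (f : BSet B) : HV fun U : UF B => HC.IsSeq (MU.E U) (om U) (MU.mk U f) := by
  unfold HC.IsSeq
  exact HV.all fun n => (hv_om n).imp (HV.all fun a => HV.all fun a' => (hv_app f n a).imp
    ((hv_app f n a').imp (HV.eq a a')))

theorem borN_union (hs : SClosed P) (he : DenseEmb P B e) (V : UF B) (f y : MU V)
    (hf : HC.IsSeq (MU.E V) (om V) f)
    (hfb : ∀ n a, MU.E V n (om V) → App (MU.E V) f n a → MU.E V a (MU.mk V (borN B)))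
    (hy : ∀ x, MU.E V x y ↔ ∃ n a, MU.E V n (om V) ∧ App (MU.E V) f n a ∧ MU.E V x a) :
    MU.E V y (MU.mk V (borN B)) := by
  obtain ⟨f, rfl⟩ := MU.mk_surj V f
  obtain ⟨y, rfl⟩ := MU.mk_surj V y
  have hv1 : HV fun V : UF B => HC.IsSeq (MU.E V) (om V) (MU.mk V f) ∧
      (∀ n a, MU.E V n (om V) → App (MU.E V) (MU.mk V f) n a → MU.E V a (MU.mk V (borN B))) ∧
      ∀ x, MU.E V x (MU.mk V y) ↔ ∃ n a, MU.E V n (om V) ∧ App (MU.E V) (MU.mk V f) n a ∧
        MU.E V x a := by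
    refine (hv_isSeq f).and (HV.and ?_ ?_)
    · exact HV.all fun n => HV.all fun a => (hv_om n).imp ((hv_app f n a).imp (HV.mem a _))
    · exact HV.all fun x => (HV.mem x y).iff (HV.ex fun n => HV.ex fun a => (hv_om n).and
        ((hv_app f n a).and (HV.mem x a)))
  refine of_dense_top he (hv1.imp (HV.mem y (borN B))) (fun p => ?_) V ⟨hf, hfb, hy⟩
  obtain ⟨q, hq, h1 | h1⟩ := exists_decide he hv1 p
  swap
  · exact ⟨q, hq, fun V hV h2 => absurd h2 (h1 V hV)⟩
  -- the sequence is decided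
  obtain ⟨r, hr, g, hg⟩ := choose_all hs he (κ := ℕ)
    (ι := Option {A : Set (ℕ → Bool) // MeasurableSet A})
    (Q := fun n o V => match o with
      | none => ¬ ∃ a, App (MU.E V) (MU.mk V f) (nn V n) a
      | some A => App (MU.E V) (MU.mk V f) (nn V n) (MU.mk V (chkS B A.1))) (p := q) (by
    intro n q' hq'
    obtain ⟨s, hs', h2 | h2⟩ := exists_decide he (HV.ex fun a =>
      hv_app f (chk B (n : Ordinal.{0})) a) q'
    · obtain ⟨t, ht, A, hA⟩ := exists_of_mem he (ι := {A : Set (ℕ → Bool) // MeasurableSet A})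
        (A := fun A => chkS B A.1) (a := fun _ => ⊤)
        (Q := fun V a => App (MU.E V) (MU.mk V f) (nn V n) a)
        (fun a => hv_app f (chk B (n : Ordinal.{0})) a) (p := s) (by
          intro V hV
          obtain ⟨a, ha⟩ := h2 V hV
          refine ⟨a, ?_, ha⟩
          exact (h1 V (V.mem_of_le hV (he.mono _ _ (hs'.trans hq')))).2.1 _ _ (E_nn_om V n) ha)
      exact ⟨t, ht.trans hs', some A, fun V hV => (hA V hV).2⟩
    · exact ⟨s, hs', none, h2⟩)
  refine ⟨r, hr.trans hq, fun V hV _ => ?_⟩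
  have h2 : MU.mk V y = MU.mk V (chkS B (⋃ n, {x | ∃ A, g n = some A ∧ x ∈ A.1})) := by
    refine eq_of_snm hs he (b := e r) (fun V hV => ?_) V hV
    have h3 := h1 V (V.mem_of_le hV (he.mono _ _ hr))
    refine ⟨fun m hm => ?_, isReal_chkS V _, fun X => ?_⟩
    · obtain ⟨n, a, hn, ha, hma⟩ := (h3.2.2 m).1 hm
      refine ball_borN (Q := fun V a => ∀ m, MU.E V m a → IsReal (MU.E V) (om V) m)
        (fun a => HV.all fun m => (HV.mem m a).imp (hv_isReal m)) ⊤
        (fun V _ A _ => isReal_chkS V A) V V.top_mem a (h3.2.1 n a hn ha) m hma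
    · rw [h3.2.2, E_chkS, Set.mem_iUnion]
      constructor
      · rintro ⟨n, a, hn, ha, hXa⟩
        refine ball_w (Q := fun V n => ∀ a, HC.IsSeq (MU.E V) (om V) (MU.mk V f) →
          App (MU.E V) (MU.mk V f) n a → MU.E V (MU.mk V (snm X)) a →
          ∃ n, ∃ A, g n = some A ∧ X ∈ A.1) (fun n => HV.all fun a => (hv_isSeq f).imp
            ((hv_app f n a).imp ((HV.mem _ a).imp (HV.const _)))) (e r) ?_ V hV n hn a h3.1 ha hXa
        intro V hV n a hf ha hXa
        have h4 := hg n V hV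
        cases hgn : g n with
        | none =>
          rw [hgn] at h4
          exact absurd ⟨a, ha⟩ h4
        | some A =>
          rw [hgn] at h4
          have h5 := hf _ (E_nn_om V n) _ _ ha h4
          rw [h5, E_chkS] at hXa
          exact ⟨n, A, hgn, hXa⟩
      · rintro ⟨n, A, hgn, hXA⟩
        have h4 := hg n V hV
        rw [hgn] at h4
        exact ⟨nn V n, _, E_nn_om V n, h4, (E_chkS V A.1 X).2 hXA⟩
  rw [h2]
  refine E_borN V (MeasurableSet.iUnion fun n => ?_)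
  cases hgn : g n with
  | none => simp
  | some A =>
    have h3 : {x : ℕ → Bool | ∃ A', (some A : Option {A : Set (ℕ → Bool) // MeasurableSet A}) =
        some A' ∧ x ∈ A'.1} = A.1 := by
      ext x
      simp
    rw [h3]
    exact A.2

/-- the Borel sets of the model are the Borel sets of the ground model -/
theorem mem_borN_of_isBorel (hs : SClosed P) (he : DenseEmb P B e) (V : UF B) (x : MU V)
    (hx : IsBorel (MU.E V) (om V) x) : MU.E V x (MU.mk V (borN B)) :=
  hx _ (borN_open hs he V) (fun A C hA hC => borN_compl hs he V A C hA hC)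
    fun f C hf hfb hC => borN_union hs he V f C hf hfb hC

end Emb

end CN
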