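import Pool.Agent.H92.CN.Sc
import Pool.Agent.H46.HC.Defs

/-!
# CHK: names of sets of reals of the ground model, names of open and closed sets
-/

set_option autoImplicit false

namespace CN

open BV PK HM PM HC

variable {B : Type} [CompleteBooleanAlgebra B]

/-- name of a set of reals of the ground model -/
noncomputable def chkS (B : Type) [CompleteBooleanAlgebra B] (A : Set (ℕ → Bool)) : BSet B :=
  BSet.mk A (fun x => snm x.1) fun _ => ⊤

theorem snm_inj (V : UF B) {x y : ℕ → Bool} (h : MU.mk V (snm x) = MU.mk V (snm y)) : x = y := by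
  funext n
  have h1 := E_snm V x n
  rw [h, E_snm V y n] at h1
  cases hx : x n <;> cases hy : y n <;> simp_all

theorem isReal_snm (V : UF B) (x : ℕ → Bool) : IsReal (MU.E V) (om V) (MU.mk V (snm x)) :=
  isReal_rnm V _

theorem ball_chkS {A : Set (ℕ → Bool)} {Q : ∀ U : UF B, MU U → Prop}
    (hQ : ∀ x : BSet B, HV fun U => Q U (MU.mk U x)) (b : B)
    (h : ∀ V : UF B, b ∈ V → ∀ x ∈ A, Q V (MU.mk V (snm x))) (U : UF B) (hb : b ∈ U)
    (m : MU U) (hm : MU.E U m (MU.mk U (chkS B A))) : Q U m :=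
  ball_mk hQ b (fun V hV i _ => h V hV i.1 i.2) U hb m hm

theorem E_chkS (V : UF B) (A : Set (ℕ → Bool)) (x : ℕ → Bool) :
    MU.E V (MU.mk V (snm x)) (MU.mk V (chkS B A)) ↔ x ∈ A := by
  constructor
  · intro h
    refine ball_chkS (Q := fun U m => m = MU.mk U (snm x) → x ∈ A)
      (fun y => (HV.eq y _).imp (HV.const _)) ⊤ ?_ V V.top_mem _ h rfl
    intro U _ y hy hyx
    rwa [← snm_inj U hyx]
  · intro h
    exact mem_mk (A := fun x : A => snm x.1) (a := fun _ => ⊤) V ⟨x, h⟩ V.top_mem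

theorem hv_isReal (x : BSet B) : HV fun U : UF B => IsReal (MU.E U) (om U) (MU.mk U x) := by
  unfold IsReal
  exact HV.all fun z => (HV.mem z x).imp (hv_om z)

theorem isReal_chkS (V : UF B) (A : Set (ℕ → Bool)) (m : MU V)
    (hm : MU.E V m (MU.mk V (chkS B A))) : IsReal (MU.E V) (om V) m :=
  ball_chkS (Q := fun U m => IsReal (MU.E U) (om U) m) hv_isReal ⊤
    (fun U _ x _ => isReal_snm U x) V V.top_mem m hm

/-- two subsets of `ω` which have the same standard elements are equal -/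
theorem eq_of_nn {x y : BSet B} {b : B}
    (h : ∀ V : UF B, b ∈ V → IsReal (MU.E V) (om V) (MU.mk V x) ∧ IsReal (MU.E V) (om V) (MU.mk V y) ∧
      ∀ n, (MU.E V (nn V n) (MU.mk V x) ↔ MU.E V (nn V n) (MU.mk V y))) (V : UF B) (hV : b ∈ V) :
    MU.mk V x = MU.mk V y := by
  have key := ball_w (Q := fun V n => MU.E V n (MU.mk V x) ↔ MU.E V n (MU.mk V y))
    (fun n => (HV.mem n x).iff (HV.mem n y)) b fun V hV n => (h V hV).2.2 n
  refine MU.ext_E V _ _ fun z => ⟨fun hz => ?_, fun hz => ?_⟩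
  · exact (key V hV z ((h V hV).1 z hz)).1 hz
  · exact (key V hV z ((h V hV).2.1 z hz)).2 hz

section Emb

variable {P : Type} [Preorder P] {e : P → B}

/-- no new reals -/
theorem real_chk (h : SClosed P) (he : DenseEmb P B e) (x : BSet B) {p : P}
    (hp : ∀ V : UF B, e p ∈ V → IsReal (MU.E V) (om V) (MU.mk V x)) :
    ∃ q, q ≤ p ∧ ∃ X : ℕ → Bool, ∀ V : UF B, e q ∈ V → MU.mk V x = MU.mk V (snm X) := by
  obtain ⟨q, hq, X, hX⟩ := decide_all h he (κ := ℕ)
    (Q := fun n V => MU.E V (nn V n) (MU.mk V x)) (fun n => HV.mem (chk B (n : Ordinal.{0})) x) p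
  refine ⟨q, hq, X, eq_of_nn fun V hV => ⟨hp V (V.mem_of_le hV (he.mono _ _ hq)),
    isReal_snm V X, fun n => ?_⟩⟩
  rw [E_snm]
  exact hX n V hV

/-- to prove a property for all reals it is enough to prove it for the reals of the ground model -/
theorem ball_real (hs : SClosed P) (he : DenseEmb P B e) {Q : ∀ U : UF B, MU U → Prop}
    (hQ : ∀ x : BSet B, HV fun U => Q U (MU.mk U x)) (b : B)
    (h : ∀ V : UF B, b ∈ V → ∀ X : ℕ → Bool, Q V (MU.mk V (snm X))) (U : UF B) (hb : b ∈ U)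
    (m : MU U) (hm : IsReal (MU.E U) (om U) m) : Q U m := by
  obtain ⟨x, rfl⟩ := MU.mk_surj U m
  refine of_dense he (Q := fun U => IsReal (MU.E U) (om U) (MU.mk U x) → Q U (MU.mk U x))
    ((hv_isReal x).imp (hQ x)) (b := b) (fun q hq => ?_) U hb hm
  obtain ⟨r, hr, h1 | h1⟩ := exists_decide he (hv_isReal x) q
  · obtain ⟨s, hs, X, hX⟩ := real_chk hs he x h1
    refine ⟨s, hs.trans hr, fun V hV _ => ?_⟩
    rw [hX V hV]
    exact h V (V.mem_of_le hV ((he.mono _ _ (hs.trans hr)).trans hq)) X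
  · exact ⟨r, hr, fun V hV h2 => absurd h2 (h1 V hV)⟩

/-- two sets of reals which have the same elements in the ground model are equal -/
theorem eq_of_snm (hs : SClosed P) (he : DenseEmb P B e) {x y : BSet B} {b : B}
    (h : ∀ V : UF B, b ∈ V → (∀ m, MU.E V m (MU.mk V x) → IsReal (MU.E V) (om V) m) ∧
      (∀ m, MU.E V m (MU.mk V y) → IsReal (MU.E V) (om V) m) ∧
      ∀ X : ℕ → Bool, (MU.E V (MU.mk V (snm X)) (MU.mk V x) ↔
        MU.E V (MU.mk V (snm X)) (MU.mk V y))) (V : UF B) (hV : b ∈ V) :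
    MU.mk V x = MU.mk V y := by
  have key := ball_real hs he (Q := fun V m => MU.E V m (MU.mk V x) ↔ MU.E V m (MU.mk V y))
    (fun n => (HV.mem n x).iff (HV.mem n y)) b fun V hV n => (h V hV).2.2 n
  refine MU.ext_E V _ _ fun z => ⟨fun hz => ?_, fun hz => ?_⟩
  · exact (key V hV z ((h V hV).1 z hz)).1 hz
  · exact (key V hV z ((h V hV).2.1 z hz)).2 hz

end Emb

/-- inclusion of sets of reals of the ground model -/
theorem sub_chkS (V : UF B) {A A' : Set (ℕ → Bool)} :
    (∀ m, MU.E V m (MU.mk V (chkS B A)) → MU.E V m (MU.mk V (chkS B A'))) ↔ A ⊆ A' := by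
  constructor
  · intro h x hx
    exact (E_chkS V A' x).1 (h _ ((E_chkS V A x).2 hx))
  · intro h m hm
    exact ball_chkS (Q := fun U m => MU.E U m (MU.mk U (chkS B A'))) (fun x => HV.mem x _) ⊤
      (fun U _ x hx => (E_chkS U A' x).2 (h hx)) V V.top_mem m hm

theorem chkS_inj (V : UF B) {A A' : Set (ℕ → Bool)}
    (h : MU.mk V (chkS B A) = MU.mk V (chkS B A')) : A = A' := by
  ext x
  rw [← E_chkS V A x, h, E_chkS]

/-! ## Boxes -/

/-- `x` and `y` agree below `n` -/
def Ag (n : ℕ) (x y : ℕ → Bool) : Prop := ∀ i < n, x i = y i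

theorem agree_snm (V : UF B) (n : ℕ) (x y : ℕ → Bool) :
    Agree (MU.E V) (nn V n) (MU.mk V (snm x)) (MU.mk V (snm y)) ↔ Ag n x y := by
  constructor
  · intro h i hi
    have h1 := h (nn V i) ((E_nn V i n).2 hi)
    rw [E_snm, E_snm] at h1
    cases hx : x i <;> cases hy : y i <;> simp_all
  · intro h z hz
    obtain ⟨i, hi, rfl⟩ := mem_nn V n z hz
    rw [E_snm, E_snm, h i hi]

theorem hv_agree (n x y : BSet B) :
    HV fun U : UF B => Agree (MU.E U) (MU.mk U n) (MU.mk U x) (MU.mk U y) := by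
  unfold Agree
  exact HV.all fun i => (HV.mem i n).imp ((HV.mem i x).iff (HV.mem i y))

/-- the 0-1 sequence of a finite set -/
noncomputable def fs (s : Finset ℕ) : ℕ → Bool := fun i => decide (i ∈ s)

/-- the part of `x` below `n`, as a finite set -/
noncomputable def cut (n : ℕ) (x : ℕ → Bool) : Finset ℕ := (Finset.range n).filter fun i => x i = true

theorem ag_cut (n : ℕ) (x : ℕ → Bool) : Ag n (fs (cut n x)) x := by
  intro i hi
  unfold fs cut
  cases hx : x i <;> simp [hx, hi]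

theorem Ag.symm {n : ℕ} {x y : ℕ → Bool} (h : Ag n x y) : Ag n y x := fun i hi => (h i hi).symm

theorem Ag.trans {n : ℕ} {x y z : ℕ → Bool} (h : Ag n x y) (h' : Ag n y z) : Ag n x z :=
  fun i hi => (h i hi).trans (h' i hi)

theorem Ag.mono {m n : ℕ} {x y : ℕ → Bool} (h : Ag n x y) (hm : m ≤ n) : Ag m x y :=
  fun i hi => h i (by omega)

theorem fnm_eq (s : Finset ℕ) : (fnm s : BSet B) = snm (fs s) := rfl

theorem isOpen_ag (n : ℕ) (x : ℕ → Bool) : IsOpen {y | Ag n x y} := by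
  have h1 : {y : ℕ → Bool | Ag n x y} = ⋂ i ∈ Finset.range n, {y | x i = y i} := by
    ext y
    simp [Ag]
  rw [h1]
  refine isOpen_biInter_finset fun i _ => ?_
  have h2 : {y : ℕ → Bool | x i = y i} = (fun y : ℕ → Bool => y i) ⁻¹' {x i} := by
    ext y
    simp [eq_comm]
  rw [h2]
  exact (isOpen_discrete _).preimage (continuous_apply i)

/-- open sets of 0-1 sequences -/
theorem isOpen_iff_ag {U : Set (ℕ → Bool)} :
    IsOpen U ↔ ∀ x ∈ U, ∃ n, ∀ y, Ag n x y → y ∈ U := by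
  constructor
  · intro h x hx
    obtain ⟨I, u, hu, hI⟩ := isOpen_pi_iff.1 h x hx
    obtain ⟨n, hn⟩ := I.exists_nat_subset_range
    refine ⟨n, fun y hy => hI ?_⟩
    intro i hi
    rw [← hy i (Finset.mem_range.1 (hn hi))]
    exact (hu i hi).2
  · intro h
    rw [isOpen_iff_forall_mem_open]
    intro x hx
    obtain ⟨n, hn⟩ := h x hx
    exact ⟨{y | Ag n x y}, hn, isOpen_ag n x, fun i _ => rfl⟩

/-- closed sets of 0-1 sequences -/
theorem isClosed_iff_ag {K : Set (ℕ → Bool)} :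
    IsClosed K ↔ ∀ x, (∀ n, ∃ y ∈ K, Ag n x y) → x ∈ K := by
  rw [← isOpen_compl_iff, isOpen_iff_ag]
  constructor
  · intro h x hx
    by_contra hxK
    obtain ⟨n, hn⟩ := h x hxK
    obtain ⟨y, hy, hxy⟩ := hx n
    exact hn y hxy hy
  · intro h x hx
    by_contra hcon
    push Not at hcon
    refine hx (h x fun n => ?_)
    obtain ⟨y, hy, hyK⟩ := hcon n
    exact ⟨y, by simpa using hyK, hy⟩

end CN
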