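import Pool.Agent.H92.CN.Coin

/-!
# CND: countable partial monotone `G_δ` hull operations
-/

set_option autoImplicit false

open MeasureTheory Set

namespace CN

/-- countable partial monotone `G_δ` hull operations -/
structure Cond where
  dom : Set (Set (ℕ → Bool))
  f : Set (ℕ → Bool) → Set (ℕ → Bool)
  cnt : dom.Countable
  bor : ∀ A ∈ dom, MeasurableSet A
  sub : ∀ A ∈ dom, A ⊆ f A
  gd : ∀ A ∈ dom, IsGδ (f A)
  null : ∀ A ∈ dom, coin (f A \ A) = 0
  mono : ∀ A ∈ dom, ∀ A' ∈ dom, A ⊆ A' → f A ⊆ f A'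

instance : Preorder Cond where
  le q p := p.dom ⊆ q.dom ∧ ∀ A ∈ p.dom, q.f A = p.f A
  le_refl p := ⟨subset_rfl, fun _ _ => rfl⟩
  le_trans r q p h h' := ⟨h'.1.trans h.1, fun A hA => (h.2 A (h'.1 hA)).trans (h'.2 A hA)⟩

namespace Cond

theorem le_def {q p : Cond} : q ≤ p ↔ p.dom ⊆ q.dom ∧ ∀ A ∈ p.dom, q.f A = p.f A := Iff.rfl

/-- the empty condition -/
def empty : Cond where
  dom := ∅
  f := id
  cnt := countable_empty
  bor := by simp
  sub := by simp
  gd := by simp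
  null := by simp
  mono := by simp

theorem sClosed : SClosed Cond := by
  classical
  intro s hs
  have hanti : ∀ m n, m ≤ n → s n ≤ s m := by
    intro m n hmn
    induction n, hmn using Nat.le_induction with
    | base => exact le_rfl
    | succ n _ ih => exact (hs n).trans ih
  let F : Set (ℕ → Bool) → Set (ℕ → Bool) := fun A =>
    if h : ∃ n, A ∈ (s n).dom then (s (Nat.find h)).f A else A
  have hF : ∀ n A, A ∈ (s n).dom → F A = (s n).f A := by
    intro n A hA
    have h : ∃ n, A ∈ (s n).dom := ⟨n, hA⟩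
    have h1 : F A = (s (Nat.find h)).f A := dif_pos h
    rw [h1]
    exact ((hanti _ n (Nat.find_min' h hA)).2 A (Nat.find_spec h)).symm
  have hdom : ∀ A A', A ∈ ⋃ n, (s n).dom → A' ∈ ⋃ n, (s n).dom →
      ∃ n, A ∈ (s n).dom ∧ A' ∈ (s n).dom := by
    intro A A' hA hA'
    obtain ⟨m, hm⟩ := Set.mem_iUnion.1 hA
    obtain ⟨n, hn⟩ := Set.mem_iUnion.1 hA'
    exact ⟨max m n, (hanti _ _ (le_max_left m n)).1 hm, (hanti _ _ (le_max_right m n)).1 hn⟩
  refine ⟨⟨⋃ n, (s n).dom, F, countable_iUnion fun n => (s n).cnt, ?_, ?_, ?_, ?_, ?_⟩, ?_⟩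
  · intro A hA
    obtain ⟨n, hn⟩ := Set.mem_iUnion.1 hA
    exact (s n).bor A hn
  · intro A hA
    obtain ⟨n, hn⟩ := Set.mem_iUnion.1 hA
    rw [hF n A hn]
    exact (s n).sub A hn
  · intro A hA
    obtain ⟨n, hn⟩ := Set.mem_iUnion.1 hA
    rw [hF n A hn]
    exact (s n).gd A hn
  · intro A hA
    obtain ⟨n, hn⟩ := Set.mem_iUnion.1 hA
    rw [hF n A hn]
    exact (s n).null A hn
  · intro A hA A' hA' hAA
    obtain ⟨n, hn, hn'⟩ := hdom A A' hA hA'
    rw [hF n A hn, hF n A' hn']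
    exact (s n).mono A hn A' hn' hAA
  · intro n
    exact ⟨subset_iUnion (fun n => (s n).dom) n, fun A hA => hF n A hA⟩

/-- a Borel set can be added to the domain -/
theorem exists_ext (p : Cond) (A : Set (ℕ → Bool)) (hA : MeasurableSet A) :
    ∃ q, q ≤ p ∧ A ∈ q.dom := by
  classical
  by_cases hAp : A ∈ p.dom
  · exact ⟨p, le_rfl, hAp⟩
  have hcnt1 : {A' ∈ p.dom | A' ⊆ A}.Countable := p.cnt.mono (sep_subset _ _)
  have hcnt2 : {A' ∈ p.dom | A ⊆ A'}.Countable := p.cnt.mono (sep_subset _ _)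
  set L : Set (ℕ → Bool) := A ∪ ⋃ A' ∈ {A' ∈ p.dom | A' ⊆ A}, p.f A' with hL
  set R : Set (ℕ → Bool) := ⋂ A' ∈ {A' ∈ p.dom | A ⊆ A'}, p.f A' with hR
  have hLm : MeasurableSet L := by
    refine hA.union (MeasurableSet.biUnion hcnt1 fun A' hA' => ?_)
    exact (p.gd A' hA'.1).measurableSet
  have hRg : IsGδ R := IsGδ.biInter hcnt2 fun A' hA' => p.gd A' hA'.1
  have hLR : L ⊆ R := by
    refine subset_iInter₂ fun A' hA' => union_subset ?_ (iUnion₂_subset fun A'' hA'' => ?_)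
    · exact hA'.2.trans (p.sub A' hA'.1)
    · exact p.mono A'' hA''.1 A' hA'.1 (hA''.2.trans hA'.2)
  have hLA : coin (L \ A) = 0 := by
    have h1 : L \ A ⊆ ⋃ A' ∈ {A' ∈ p.dom | A' ⊆ A}, (p.f A' \ A') := by
      rintro x ⟨hx1 | hx1, hx2⟩
      · exact absurd hx1 hx2
      · obtain ⟨A', hA', hxA⟩ := Set.mem_iUnion₂.1 hx1
        exact Set.mem_iUnion₂.2 ⟨A', hA', hxA, fun h => hx2 (hA'.2 h)⟩
    refine measure_mono_null h1 ((measure_biUnion_null_iff hcnt1).2 fun A' hA' => ?_)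
    exact p.null A' hA'.1
  obtain ⟨H₀, hLH, hH₀, hnull⟩ := exists_hull L hLm
  set H : Set (ℕ → Bool) := H₀ ∩ R with hH
  have hHL : L ⊆ H := subset_inter hLH hLR
  have hAH : A ⊆ H := subset_union_left.trans hHL
  have hHA : coin (H \ A) = 0 := by
    have h1 : H \ A ⊆ (H₀ \ L) ∪ (L \ A) := by
      rintro x ⟨hx1, hx2⟩
      by_cases hxL : x ∈ L
      · exact Or.inr ⟨hxL, hx2⟩
      · exact Or.inl ⟨hx1.1, hxL⟩
    exact measure_mono_null h1 (measure_union_null hnull hLA)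
  have hne : ∀ A' ∈ p.dom, Function.update p.f A H A' = p.f A' := by
    intro A' hA'
    rw [Function.update_of_ne]
    rintro rfl
    exact hAp hA'
  refine ⟨⟨insert A p.dom, Function.update p.f A H, p.cnt.insert A, ?_, ?_, ?_, ?_, ?_⟩, ?_, ?_⟩
  · rintro A' (rfl | hA')
    · exact hA
    · exact p.bor A' hA'
  · rintro A' (rfl | hA')
    · rw [Function.update_self]; exact hAH
    · rw [hne A' hA']; exact p.sub A' hA'
  · rintro A' (rfl | hA')
    · rw [Function.update_self]; exact hH₀.inter hRg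
    · rw [hne A' hA']; exact p.gd A' hA'
  · rintro A' (rfl | hA')
    · rw [Function.update_self]; exact hHA
    · rw [hne A' hA']; exact p.null A' hA'
  · rintro A₁ (rfl | h1) A₂ (rfl | h2) h12
    · exact subset_rfl
    · rw [Function.update_self, hne A₂ h2]
      refine inter_subset_right.trans ?_
      exact biInter_subset_of_mem (show A₂ ∈ {A' ∈ p.dom | A₁ ⊆ A'} from ⟨h2, h12⟩)
    · rw [Function.update_self, hne A₁ h1]
      refine subset_trans ?_ hHL
      refine subset_trans ?_ subset_union_right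
      exact subset_biUnion_of_mem (u := fun A' => p.f A')
        (show A₁ ∈ {A' ∈ p.dom | A' ⊆ A₂} from ⟨h1, h12⟩)
    · rw [hne A₁ h1, hne A₂ h2]
      exact p.mono A₁ h1 A₂ h2 h12
  · exact ⟨subset_insert _ _, hne⟩
  · exact mem_insert _ _

end Cond

end CN
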