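import Pool.Agent.H92.CN.Chk

/-!
# COIN: the coin measure on `ℕ → Bool`, closed null sets
-/

set_option autoImplicit false

open MeasureTheory Set Filter Topology

namespace CN

/-- a fair coin -/
noncomputable def flip : Measure Bool := (PMF.uniformOfFintype Bool).toMeasure

instance : IsProbabilityMeasure flip := by unfold flip; infer_instance

theorem flip_singleton (b : Bool) : flip {b} = 2⁻¹ := by
  unfold flip
  rw [PMF.toMeasure_apply_singleton _ _ (measurableSet_singleton b)]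
  simp [PMF.uniformOfFintype_apply]

/-- the coin measure on the space of 0-1 sequences -/
noncomputable def coin : Measure (ℕ → Bool) := Measure.infinitePi fun _ => flip

instance : IsProbabilityMeasure coin := by unfold coin; infer_instance

theorem coin_ag (n : ℕ) (x : ℕ → Bool) : coin {y | Ag n x y} = 2⁻¹ ^ n := by
  have h1 : {y : ℕ → Bool | Ag n x y} = Set.pi (Finset.range n : Set ℕ) fun i => {x i} := by
    ext y
    simp [Ag, Set.mem_pi, eq_comm]
  rw [h1]
  unfold coin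
  rw [Measure.infinitePi_pi (fun _ => flip) fun i _ => measurableSet_singleton (x i)]
  simp [flip_singleton]

/-- the indices of the boxes of level `n` inside the box of the sequences which agree with `u`
below `k` -/
noncomputable def Lev (n k : ℕ) (u : ℕ → Bool) : Finset (Finset ℕ) := by
  classical
  exact (Finset.range n).powerset.filter fun s => Ag k (fs s) u

theorem mem_Lev {n k : ℕ} {u : ℕ → Bool} {s : Finset ℕ} :
    s ∈ Lev n k u ↔ s ⊆ Finset.range n ∧ Ag k (fs s) u := by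
  unfold Lev
  simp

/-- the box of level `n` with index `s` meets `K` -/
def Mt (n : ℕ) (s : Finset ℕ) (K : Set (ℕ → Bool)) : Prop := ∃ x ∈ K, Ag n x (fs s)

open Classical in
/-- Lean version of `HC.IsNullC` -/
def Nullc (K : Set (ℕ → Bool)) : Prop :=
  ∀ (k : ℕ) (u : ℕ → Bool), ∃ n, k < n ∧
    ((Lev n k u).filter fun s => Mt n s K).card ≤ ((Lev n k u).filter fun s => ¬ Mt n s K).card

theorem measurableSet_ag (n : ℕ) (x : ℕ → Bool) : MeasurableSet {y | Ag n x y} :=
  (isOpen_ag n x).measurableSet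

theorem fs_inj_of_ag {n : ℕ} {s t : Finset ℕ} (hs : s ⊆ Finset.range n) (ht : t ⊆ Finset.range n)
    (h : Ag n (fs s) (fs t)) : s = t := by
  ext i
  by_cases hi : i < n
  · have h1 := h i hi
    unfold fs at h1
    simpa using h1
  · constructor
    · intro h1; exact absurd (Finset.mem_range.1 (hs h1)) hi
    · intro h1; exact absurd (Finset.mem_range.1 (ht h1)) hi

theorem coin_biUnion {n : ℕ} {L : Finset (Finset ℕ)} (hL : ∀ s ∈ L, s ⊆ Finset.range n) :
    coin (⋃ s ∈ L, {y | Ag n (fs s) y}) = L.card * 2⁻¹ ^ n := by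
  rw [measure_biUnion_finset]
  · simp [coin_ag]
  · intro s hs t ht hst
    refine Set.disjoint_left.2 fun y hy hy' => hst ?_
    exact fs_inj_of_ag (hL s hs) (hL t ht) (Ag.trans hy (Ag.symm hy'))
  · intro s _
    exact measurableSet_ag n _

theorem cut_subset (n : ℕ) (x : ℕ → Bool) : cut n x ⊆ Finset.range n := Finset.filter_subset _ _

theorem cut_mem_Lev {n k : ℕ} (h : k ≤ n) {u y : ℕ → Bool} (hy : Ag k u y) : cut n y ∈ Lev n k u :=
  mem_Lev.2 ⟨cut_subset n y, ((ag_cut n y).mono h).trans hy.symm⟩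

theorem card_Lev {n k : ℕ} (h : k ≤ n) (u : ℕ → Bool) :
    ((Lev n k u).card : ENNReal) * 2⁻¹ ^ n = 2⁻¹ ^ k := by
  rw [← coin_biUnion (n := n) fun s hs => (mem_Lev.1 hs).1, ← coin_ag k u]
  congr 1
  ext y
  simp only [Set.mem_iUnion, Set.mem_setOf_eq, exists_prop]
  constructor
  · rintro ⟨s, hs, hy⟩
    exact (mem_Lev.1 hs).2.symm.trans (hy.mono h)
  · intro hy
    exact ⟨cut n y, cut_mem_Lev h hy, ag_cut n y⟩

theorem nullc_of_coin {K : Set (ℕ → Bool)} (hK : IsClosed K) (h0 : coin K = 0) : Nullc K := by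
  classical
  intro k u
  set F : ℕ → Set (ℕ → Bool) := fun n => {y | Ag k u y ∧ ∃ x ∈ K, Ag n x y} with hF
  have hFm : ∀ n, IsClosed (F n) := by
    intro n
    rw [isClosed_iff_ag]
    intro x hx
    obtain ⟨y, ⟨hy1, z, hz, hzy⟩, hxy⟩ := hx (max k n)
    exact ⟨hy1.trans (hxy.symm.mono (le_max_left _ _)), z, hz,
      hzy.trans (hxy.symm.mono (le_max_right _ _))⟩
  have hanti : Antitone F := by
    rintro m n hmn y ⟨hy, x, hx, hxy⟩
    exact ⟨hy, x, hx, hxy.mono hmn⟩
  have hInt : ⋂ n, F n ⊆ K := by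
    intro y hy
    rw [isClosed_iff_ag] at hK
    refine hK y fun n => ?_
    obtain ⟨-, x, hx, hxy⟩ := Set.mem_iInter.1 hy n
    exact ⟨x, hx, hxy.symm⟩
  have ht : Tendsto (coin ∘ F) atTop (𝓝 (coin (⋂ n, F n))) :=
    tendsto_measure_iInter_atTop (fun n => (hFm n).measurableSet.nullMeasurableSet) hanti
      ⟨0, measure_ne_top _ _⟩
  rw [measure_mono_null hInt h0] at ht
  have hpos : (0 : ENNReal) < 2⁻¹ ^ (k + 1) := by
    apply ENNReal.pow_pos
    simp
  obtain ⟨n, hn⟩ := ((ht.eventually_lt_const hpos).and (eventually_gt_atTop k)).exists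
  refine ⟨n, hn.2, ?_⟩
  set L := Lev n k u with hL
  have h1 : coin (F n) = (L.filter fun s => Mt n s K).card * 2⁻¹ ^ n := by
    rw [← coin_biUnion (n := n) fun s hs => (mem_Lev.1 (Finset.mem_filter.1 hs).1).1]
    congr 1
    ext y
    simp only [hF, Set.mem_iUnion, Set.mem_setOf_eq, exists_prop, Finset.mem_filter]
    constructor
    · rintro ⟨hy, x, hx, hxy⟩
      exact ⟨cut n y, ⟨cut_mem_Lev hn.2.le hy, x, hx, hxy.trans (ag_cut n y).symm⟩, ag_cut n y⟩
    · rintro ⟨s, ⟨hs, x, hx, hxs⟩, hy⟩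
      exact ⟨(mem_Lev.1 hs).2.symm.trans (hy.mono hn.2.le), x, hx, hxs.trans hy⟩
  have h2 : ((L.filter fun s => Mt n s K).card : ENNReal) * 2⁻¹ ^ n < 2⁻¹ ^ (k + 1) := by
    rw [← h1]; exact hn.1
  have h3 : ((L.filter fun s => Mt n s K).card : ENNReal) * 2⁻¹ ^ n +
      ((L.filter fun s => ¬ Mt n s K).card : ENNReal) * 2⁻¹ ^ n = 2⁻¹ ^ k := by
    rw [← add_mul, ← Nat.cast_add, Finset.card_filter_add_card_filter_not, hL]
    exact card_Lev hn.2.le u
  have h4 : (2⁻¹ : ENNReal) ^ (k + 1) + 2⁻¹ ^ (k + 1) = 2⁻¹ ^ k := by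
    rw [pow_succ, ← mul_add, ENNReal.inv_two_add_inv_two, mul_one]
  by_contra hcon
  push Not at hcon
  have h5 : ((L.filter fun s => ¬ Mt n s K).card : ENNReal) * 2⁻¹ ^ n ≤
      ((L.filter fun s => Mt n s K).card : ENNReal) * 2⁻¹ ^ n := by
    gcongr
  have h6 := ENNReal.add_lt_add h2 (lt_of_le_of_lt h5 h2)
  rw [h3, h4] at h6
  exact lt_irrefl _ h6

theorem coin_of_nullc {K : Set (ℕ → Bool)} (h : Nullc K) : coin K = 0 := by
  classical
  have key : ∀ j k (u : ℕ → Bool), coin (K ∩ {y | Ag k u y}) ≤ 2⁻¹ ^ k * 2⁻¹ ^ j := by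
    intro j
    induction j with
    | zero =>
      intro k u
      rw [pow_zero, mul_one, ← coin_ag k u]
      exact measure_mono Set.inter_subset_right
    | succ j ih =>
      intro k u
      obtain ⟨n, hn, hc⟩ := h k u
      set L := Lev n k u with hL
      have h1 : K ∩ {y | Ag k u y} ⊆ ⋃ s ∈ L.filter fun s => Mt n s K, K ∩ {y | Ag n (fs s) y} := by
        rintro y ⟨hyK, hy⟩
        simp only [Set.mem_iUnion, Finset.mem_filter, exists_prop]
        exact ⟨cut n y, ⟨cut_mem_Lev hn.le hy, y, hyK, (ag_cut n y).symm⟩, hyK, ag_cut n y⟩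
      have h2 : coin (K ∩ {y | Ag k u y}) ≤
          ((L.filter fun s => Mt n s K).card : ENNReal) * (2⁻¹ ^ n * 2⁻¹ ^ j) := by
        refine (measure_mono h1).trans ((measure_biUnion_finset_le _ _).trans ?_)
        refine (Finset.sum_le_sum fun s _ => ih n (fs s)).trans ?_
        rw [Finset.sum_const, nsmul_eq_mul]
      have h3 : ((L.filter fun s => Mt n s K).card : ENNReal) * 2⁻¹ ^ n +
          ((L.filter fun s => ¬ Mt n s K).card : ENNReal) * 2⁻¹ ^ n = 2⁻¹ ^ k := by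
        rw [← add_mul, ← Nat.cast_add, Finset.card_filter_add_card_filter_not, hL]
        exact card_Lev hn.le u
      have h4 : 2 * (((L.filter fun s => Mt n s K).card : ENNReal) * 2⁻¹ ^ n) ≤ 2⁻¹ ^ k := by
        rw [two_mul, ← h3]
        gcongr
      have h5 : ((L.filter fun s => Mt n s K).card : ENNReal) * 2⁻¹ ^ n ≤ 2⁻¹ * 2⁻¹ ^ k := by
        calc ((L.filter fun s => Mt n s K).card : ENNReal) * 2⁻¹ ^ n
            = 2⁻¹ * (2 * (((L.filter fun s => Mt n s K).card : ENNReal) * 2⁻¹ ^ n)) := by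
              rw [← mul_assoc 2⁻¹ 2, ENNReal.inv_mul_cancel (by simp) (by simp), one_mul]
          _ ≤ 2⁻¹ * 2⁻¹ ^ k := by gcongr
      refine h2.trans ?_
      rw [← mul_assoc, pow_succ]
      calc ((L.filter fun s => Mt n s K).card : ENNReal) * 2⁻¹ ^ n * 2⁻¹ ^ j
          ≤ 2⁻¹ * 2⁻¹ ^ k * 2⁻¹ ^ j := by gcongr
        _ = 2⁻¹ ^ k * (2⁻¹ ^ j * 2⁻¹) := by ring
  have h1 : ∀ j, coin K ≤ 2⁻¹ ^ j := by
    intro j
    have h2 := key j 0 (fun _ => false)
    rw [pow_zero, one_mul] at h2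
    refine le_trans (measure_mono fun y hy => ?_) h2
    exact ⟨hy, fun i hi => absurd hi (by omega)⟩
  have h2 : Tendsto (fun j : ℕ => (2⁻¹ : ENNReal) ^ j) atTop (𝓝 0) :=
    ENNReal.tendsto_pow_atTop_nhds_zero_of_lt_one (by simp)
  exact le_antisymm (ge_of_tendsto' h2 h1) bot_le

theorem nullc_iff {K : Set (ℕ → Bool)} (hK : IsClosed K) : Nullc K ↔ coin K = 0 :=
  ⟨coin_of_nullc, nullc_of_coin hK⟩

/-- `G_δ` hulls exist -/
theorem exists_hull (A : Set (ℕ → Bool)) (hA : MeasurableSet A) :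
    ∃ H, A ⊆ H ∧ IsGδ H ∧ coin (H \ A) = 0 := by
  have h1 : ∀ n : ℕ, ∃ U, A ⊆ U ∧ IsOpen U ∧ coin U < coin A + (n + 1 : ENNReal)⁻¹ := by
    intro n
    obtain ⟨U, hAU, hU, h2⟩ := A.exists_isOpen_lt_add (μ := coin) (measure_ne_top _ _)
      (ε := (n + 1 : ENNReal)⁻¹) (by simp)
    exact ⟨U, hAU, hU, h2⟩
  choose U hAU hU hlt using h1
  refine ⟨⋂ n, U n, Set.subset_iInter hAU, .iInter_of_isOpen hU, ?_⟩
  rw [measure_diff (Set.subset_iInter hAU) hA.nullMeasurableSet (measure_ne_top _ _)]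
  rw [tsub_eq_zero_iff_le]
  refine le_of_forall_pos_le_add fun ε hε => ?_
  obtain ⟨n, hn⟩ := ENNReal.exists_inv_nat_lt hε.ne'
  refine (measure_mono (Set.iInter_subset U n)).trans ((hlt n).le.trans ?_)
  refine add_le_add le_rfl (le_trans ?_ hn.le)
  rw [ENNReal.inv_le_inv]
  exact le_self_add

end CN
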