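import Pool.Agent.H92.CN.Coin
import Pool.Agent.H46.HC.Real

/-!
# FI: monotone hull operations on `ℕ → Bool` and on `[0, 1]`
-/

set_option autoImplicit false

open MeasureTheory Set Filter Topology

namespace CN

/-- digits of a 0-1 sequence -/
def dg (x : ℕ → Bool) (i : ℕ) : Fin 2 := if x i then 1 else 0

theorem dg_inj {x y : ℕ → Bool} {i : ℕ} (h : dg x i = dg y i) : x i = y i := by
  unfold dg at h
  cases hx : x i <;> cases hy : y i <;> simp_all

/-- binary expansion -/
noncomputable def bex (x : ℕ → Bool) : ℝ := Real.ofDigits (dg x)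

theorem continuous_bex : Continuous bex := by
  refine Real.continuous_ofDigits.comp (continuous_pi fun i => ?_)
  exact (continuous_of_discreteTopology (f := fun b : Bool => (if b then 1 else 0 : Fin 2))).comp
    (continuous_apply i)

theorem bex_mem (x : ℕ → Bool) : bex x ∈ Icc (0 : ℝ) 1 :=
  ⟨Real.ofDigits_nonneg _, Real.ofDigits_le_one _⟩

/-- the binary digits of a real number -/
noncomputable def dig (t : ℝ) (i : ℕ) : Bool := decide (Real.digits t 2 i = 1)

theorem dg_dig (t : ℝ) : dg (dig t) = Real.digits t 2 := by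
  funext i
  unfold dg dig
  generalize Real.digits t 2 i = a
  revert a
  decide

theorem bex_dig {t : ℝ} (ht : t ∈ Ico (0 : ℝ) 1) : bex (dig t) = t := by
  unfold bex
  rw [dg_dig]
  exact Real.ofDigits_digits (by norm_num) ht

theorem surj_bex {t : ℝ} (ht : t ∈ Icc (0 : ℝ) 1) : ∃ x, bex x = t := by
  rcases eq_or_lt_of_le ht.2 with h | h
  · refine ⟨fun _ => true, ?_⟩
    rw [h]
    exact Real.ofDigits_const_last_eq_one' (b := 2) (by norm_num)
  · exact ⟨dig t, bex_dig ⟨ht.1, h⟩⟩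

theorem measurable_dig : Measurable dig := by
  refine measurable_pi_iff.2 fun i => ?_
  have h1 : Measurable fun t : ℝ => ⌊t * 2 ^ (i + 1)⌋₊ :=
    Nat.measurable_floor.comp (measurable_id.mul_const _)
  exact (measurable_from_top (f := fun n : ℕ => decide (Fin.ofNat 2 n = 1))).comp h1

/-- the real numbers whose digits agree with `x` below `n` -/
theorem volume_dig_le (n : ℕ) (x : ℕ → Bool) :
    volume {t ∈ Ico (0 : ℝ) 1 | Ag n (dig t) x} ≤ 2⁻¹ ^ n := by
  set c : ℝ := ∑ i ∈ Finset.range n, Real.ofDigitsTerm (dg x) i with hc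
  have h1 : {t ∈ Ico (0 : ℝ) 1 | Ag n (dig t) x} ⊆ Icc c (c + (2⁻¹) ^ n) := by
    rintro t ⟨ht, htx⟩
    have h2 : ∑ i ∈ Finset.range n, Real.ofDigitsTerm (Real.digits t 2) i = c := by
      refine Finset.sum_congr rfl fun i hi => ?_
      rw [← dg_dig]
      unfold Real.ofDigitsTerm dg
      rw [htx i (Finset.mem_range.1 hi)]
    constructor
    · rw [← h2]
      exact Real.sum_ofDigitsTerm_digits_le ht n
    · have h3 := Real.le_sum_ofDigitsTerm_digits (b := 2) ht n
      rw [h2] at h3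
      norm_num at h3 ⊢
      linarith
  refine (measure_mono h1).trans ?_
  rw [Real.volume_Icc]
  simp only [add_sub_cancel_left]
  rw [ENNReal.ofReal_pow (by norm_num), ENNReal.ofReal_inv_of_pos (by norm_num)]
  simp

theorem volume_dig (n : ℕ) (x : ℕ → Bool) :
    volume {t ∈ Ico (0 : ℝ) 1 | Ag n (dig t) x} = 2⁻¹ ^ n := by
  set L := Lev n 0 x with hL
  have hcard : (L.card : ENNReal) * 2⁻¹ ^ n = 1 := by
    have := card_Lev (n := n) (k := 0) (Nat.zero_le n) x
    simpa using this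
  have hset : ∀ s : Finset ℕ, MeasurableSet {t ∈ Ico (0 : ℝ) 1 | Ag n (dig t) (fs s)} := by
    intro s
    have h1 : {t ∈ Ico (0 : ℝ) 1 | Ag n (dig t) (fs s)} =
        Ico 0 1 ∩ dig ⁻¹' {y | Ag n (fs s) y} := by
      ext t
      exact ⟨fun h => ⟨h.1, Ag.symm h.2⟩, fun h => ⟨h.1, Ag.symm h.2⟩⟩
    rw [h1]
    exact measurableSet_Ico.inter (measurable_dig (measurableSet_ag n _))
  have hsum : ∑ s ∈ L, volume {t ∈ Ico (0 : ℝ) 1 | Ag n (dig t) (fs s)} = 1 := by
    rw [← measure_biUnion_finset]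
    · have h1 : (⋃ s ∈ L, {t ∈ Ico (0 : ℝ) 1 | Ag n (dig t) (fs s)}) = Ico (0 : ℝ) 1 := by
        ext t
        simp only [mem_iUnion, mem_setOf_eq, exists_prop]
        constructor
        · rintro ⟨s, -, ht, -⟩; exact ht
        · intro ht
          refine ⟨cut n (dig t), cut_mem_Lev (Nat.zero_le n) fun i hi => absurd hi (by omega), ht,
            (ag_cut n _).symm⟩
      rw [h1]
      simp
    · intro s hs t ht hst
      refine Set.disjoint_left.2 fun y hy hy' => hst ?_
      exact fs_inj_of_ag (mem_Lev.1 hs).1 (mem_Lev.1 ht).1 (Ag.trans (Ag.symm hy.2) hy'.2)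
    · exact fun s _ => hset s
  have hmem : cut n x ∈ L := cut_mem_Lev (Nat.zero_le n) fun i hi => absurd hi (by omega)
  have heq : {t ∈ Ico (0 : ℝ) 1 | Ag n (dig t) x} =
      {t ∈ Ico (0 : ℝ) 1 | Ag n (dig t) (fs (cut n x))} := by
    ext t
    exact ⟨fun h => ⟨h.1, h.2.trans (ag_cut n x).symm⟩, fun h => ⟨h.1, h.2.trans (ag_cut n x)⟩⟩
  refine le_antisymm (volume_dig_le n x) ?_
  rw [heq]
  by_contra hcon
  push Not at hcon
  have h1 : ∑ s ∈ L, volume {t ∈ Ico (0 : ℝ) 1 | Ag n (dig t) (fs s)} < ∑ s ∈ L, 2⁻¹ ^ n := by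
    rw [← Finset.add_sum_erase L _ hmem, ← Finset.add_sum_erase L (fun _ => 2⁻¹ ^ n) hmem]
    refine ENNReal.add_lt_add_of_lt_of_le ?_ hcon (Finset.sum_le_sum fun s _ =>
      volume_dig_le n (fs s))
    refine ne_top_of_le_ne_top ?_ (Finset.sum_le_sum fun s _ => volume_dig_le n (fs s))
    rw [Finset.sum_const, nsmul_eq_mul]
    exact ENNReal.mul_ne_top (ENNReal.natCast_ne_top _) (ENNReal.pow_ne_top (by simp))
  rw [hsum, Finset.sum_const, nsmul_eq_mul, hcard] at h1
  exact lt_irrefl _ h1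

theorem isTopologicalBasis_ag :
    TopologicalSpace.IsTopologicalBasis
      {A : Set (ℕ → Bool) | ∃ (n : ℕ) (x : ℕ → Bool), A = {y | Ag n x y}} := by
  refine TopologicalSpace.isTopologicalBasis_of_isOpen_of_nhds ?_ ?_
  · rintro A ⟨n, x, rfl⟩
    exact isOpen_ag n x
  · intro x U hx hU
    obtain ⟨n, hn⟩ := isOpen_iff_ag.1 hU x hx
    exact ⟨_, ⟨n, x, rfl⟩, fun i _ => rfl, hn⟩

theorem map_dig : Measure.map dig (volume.restrict (Ico (0 : ℝ) 1)) = coin := by
  have hfin : IsFiniteMeasure (Measure.map dig (volume.restrict (Ico (0 : ℝ) 1))) := by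
    refine ⟨?_⟩
    rw [Measure.map_apply measurable_dig MeasurableSet.univ]
    simp
  have hbox : ∀ n x, Measure.map dig (volume.restrict (Ico (0 : ℝ) 1)) {y | Ag n x y} =
      coin {y | Ag n x y} := by
    intro n x
    rw [Measure.map_apply measurable_dig (measurableSet_ag n x), coin_ag, ← volume_dig n x,
      Measure.restrict_apply (measurable_dig (measurableSet_ag n x))]
    congr 1
    ext t
    constructor
    · rintro ⟨h1, h2⟩
      exact ⟨h2, Ag.symm h1⟩
    · rintro ⟨h1, h2⟩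
      exact ⟨Ag.symm h2, h1⟩
  refine ext_of_generate_finite
    {A : Set (ℕ → Bool) | A = ∅ ∨ ∃ (n : ℕ) (x : ℕ → Bool), A = {y | Ag n x y}} ?_ ?_ ?_ ?_
  · have h1 : (MeasurableSpace.pi : MeasurableSpace (ℕ → Bool)) =
        MeasurableSpace.generateFrom
          {A : Set (ℕ → Bool) | ∃ (n : ℕ) (x : ℕ → Bool), A = {y | Ag n x y}} :=
      BorelSpace.measurable_eq.trans isTopologicalBasis_ag.borel_eq_generateFrom
    refine h1.trans ?_
    refine le_antisymm (MeasurableSpace.generateFrom_mono fun A hA => Or.inr hA) ?_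
    refine MeasurableSpace.generateFrom_le ?_
    rintro A (rfl | hA)
    · exact @MeasurableSet.empty _ (MeasurableSpace.generateFrom _)
    · exact MeasurableSpace.measurableSet_generateFrom hA
  · rintro A (rfl | ⟨n, x, rfl⟩) A' (rfl | ⟨m, y, rfl⟩) hne
    · simp at hne
    · simp at hne
    · simp at hne
    · right
      obtain ⟨z, hz1, hz2⟩ := hne
      refine ⟨max n m, z, ?_⟩
      ext a
      constructor
      · rintro ⟨h1, h2⟩ i hi
        rcases lt_max_iff.1 hi with h | h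
        · exact (hz1 i h).symm.trans (h1 i h)
        · exact (hz2 i h).symm.trans (h2 i h)
      · intro h
        exact ⟨Ag.trans hz1 (Ag.mono h (le_max_left _ _)),
          Ag.trans hz2 (Ag.mono h (le_max_right _ _))⟩
  · rintro A (rfl | ⟨n, x, rfl⟩)
    · simp
    · exact hbox n x
  · have h1 : (Set.univ : Set (ℕ → Bool)) = {y | Ag 0 (fun _ => false) y} := by
      ext y
      simp [Ag]
    rw [h1]
    exact hbox _ _

/-- the binary expansion is measure preserving -/
theorem coin_preimage {S : Set ℝ} (hS : MeasurableSet S) : coin (bex ⁻¹' S) = volume (S ∩ Icc 0 1) := by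
  rw [← map_dig, Measure.map_apply measurable_dig (continuous_bex.measurable hS),
    Measure.restrict_apply (measurable_dig (continuous_bex.measurable hS))]
  have h1 : dig ⁻¹' (bex ⁻¹' S) ∩ Ico 0 1 = S ∩ Ico 0 1 := by
    ext t
    constructor
    · rintro ⟨h1, h2⟩
      have h3 : bex (dig t) ∈ S := h1
      rw [bex_dig h2] at h3
      exact ⟨h3, h2⟩
    · rintro ⟨h1, h2⟩
      refine ⟨?_, h2⟩
      show bex (dig t) ∈ S
      rwa [bex_dig h2]
  rw [h1]
  refine measure_congr ?_
  exact (ae_eq_refl S).inter Ico_ae_eq_Icc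

/-! ## The points where the binary expansion is not injective -/

/-- the sequences with a constant tail -/
def Ev : Set (ℕ → Bool) := {x | ∃ n b, ∀ i, n ≤ i → x i = b}

theorem countable_Ev : Ev.Countable := by
  have h1 : Ev ⊆ Set.range fun z : ℕ × Bool × Finset ℕ =>
      (fun i => if i < z.1 then decide (i ∈ z.2.2) else z.2.1 : ℕ → Bool) := by
    rintro x ⟨n, b, h⟩
    refine ⟨(n, b, cut n x), ?_⟩
    funext i
    by_cases hi : i < n
    · have h2 := ag_cut n x i hi
      unfold fs at h2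
      simp only [hi, if_true]
      exact h2
    · simp only [hi, if_false]
      exact (h i (by omega)).symm
  exact (Set.countable_range _).mono h1

theorem coin_singleton (x : ℕ → Bool) : coin {x} = 0 := by
  have h1 : ∀ n, coin {x} ≤ 2⁻¹ ^ n := by
    intro n
    rw [← coin_ag n x]
    refine measure_mono ?_
    rintro y rfl
    exact fun i _ => rfl
  have h2 : Tendsto (fun j : ℕ => (2⁻¹ : ENNReal) ^ j) atTop (𝓝 0) :=
    ENNReal.tendsto_pow_atTop_nhds_zero_of_lt_one (by simp)
  exact le_antisymm (ge_of_tendsto' h2 h1) bot_le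

theorem coin_countable {A : Set (ℕ → Bool)} (hA : A.Countable) : coin A = 0 := by
  rw [← Set.biUnion_of_singleton A]
  exact (measure_biUnion_null_iff hA).2 fun x _ => coin_singleton x

/-- `ofDigits` is `0` only for the zero sequence -/
theorem ofDigits_eq_zero {a : ℕ → Fin 2} (h : Real.ofDigits a = 0) (i : ℕ) : a i = 0 := by
  unfold Real.ofDigits at h
  have h1 := (hasSum_zero_iff_of_nonneg fun i => Real.ofDigitsTerm_nonneg).1
    (h ▸ Real.summable_ofDigitsTerm.hasSum)
  have h2 := congrFun h1 i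
  unfold Real.ofDigitsTerm at h2
  have h3 : ((a i : ℕ) : ℝ) = 0 := by
    rcases mul_eq_zero.1 h2 with h4 | h4
    · exact h4
    · exfalso
      have : (0 : ℝ) < ((2 : ℕ) : ℝ) ^ (i + 1) := by positivity
      exact (inv_pos.2 this).ne' h4
  have h4 : (a i : ℕ) = 0 := by exact_mod_cast h3
  exact Fin.ext h4

theorem ofDigits_compl (a : ℕ → Fin 2) :
    Real.ofDigits a + Real.ofDigits (fun i => 1 - a i) = 1 := by
  rw [← Real.ofDigits_const_last_eq_one' (b := 2) (by norm_num)]
  unfold Real.ofDigits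
  rw [← Summable.tsum_add Real.summable_ofDigitsTerm Real.summable_ofDigitsTerm]
  congr 1
  funext i
  unfold Real.ofDigitsTerm
  rw [← add_mul]
  congr 1
  have key : ∀ c : Fin 2, ((c : ℕ) + ((1 - c : Fin 2) : ℕ)) = 1 := by decide
  have h2 : (((a i : ℕ) + ((1 - a i : Fin 2) : ℕ) : ℕ) : ℝ) = ((1 : ℕ) : ℝ) := by rw [key (a i)]
  rw [Nat.cast_add] at h2
  exact h2

theorem ofDigits_eq_one {a : ℕ → Fin 2} (h : Real.ofDigits a = 1) (i : ℕ) : a i = 1 := by
  have h1 := ofDigits_compl a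
  rw [h] at h1
  have h2 := ofDigits_eq_zero (a := fun i => 1 - a i) (by linarith) i
  have key : ∀ c : Fin 2, 1 - c = 0 → c = 1 := by decide
  exact key _ h2

theorem ev_of_lt {x y : ℕ → Bool} {n : ℕ} (hxy : Ag n x y) (hx : x n = true) (hy : y n = false)
    (h : bex x = bex y) : x ∈ Ev ∧ y ∈ Ev := by
  unfold bex at h
  rw [Real.ofDigits_eq_sum_add_ofDigits (dg x) (n + 1),
    Real.ofDigits_eq_sum_add_ofDigits (dg y) (n + 1), Finset.sum_range_succ,
    Finset.sum_range_succ] at h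
  have h1 : ∑ i ∈ Finset.range n, Real.ofDigitsTerm (dg x) i =
      ∑ i ∈ Finset.range n, Real.ofDigitsTerm (dg y) i := by
    refine Finset.sum_congr rfl fun i hi => ?_
    unfold Real.ofDigitsTerm dg
    rw [hxy i (Finset.mem_range.1 hi)]
  have h2 : Real.ofDigitsTerm (dg x) n = (((2 : ℕ) : ℝ) ^ (n + 1))⁻¹ := by
    unfold Real.ofDigitsTerm dg
    simp [hx]
  have h3 : Real.ofDigitsTerm (dg y) n = 0 := by
    unfold Real.ofDigitsTerm dg
    simp [hy]
  rw [h1, h2, h3] at h
  have hpos : (0 : ℝ) < (((2 : ℕ) : ℝ) ^ (n + 1))⁻¹ := by positivity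
  have h4 : 1 + Real.ofDigits (fun i => dg x (i + (n + 1))) =
      Real.ofDigits (fun i => dg y (i + (n + 1))) := by
    have h5 : (((2 : ℕ) : ℝ) ^ (n + 1))⁻¹ * (1 + Real.ofDigits (fun i => dg x (i + (n + 1)))) =
        (((2 : ℕ) : ℝ) ^ (n + 1))⁻¹ * Real.ofDigits (fun i => dg y (i + (n + 1))) := by
      linarith
    exact mul_left_cancel₀ hpos.ne' h5
  have h5 := Real.ofDigits_nonneg (fun i => dg x (i + (n + 1)))
  have h6 := Real.ofDigits_le_one (fun i => dg y (i + (n + 1)))
  have h7 : Real.ofDigits (fun i => dg x (i + (n + 1))) = 0 := by linarith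
  have h8 : Real.ofDigits (fun i => dg y (i + (n + 1))) = 1 := by linarith
  constructor
  · refine ⟨n + 1, false, fun i hi => ?_⟩
    have h9 := ofDigits_eq_zero h7 (i - (n + 1))
    rw [Nat.sub_add_cancel hi] at h9
    unfold dg at h9
    cases hxi : x i <;> simp_all
  · refine ⟨n + 1, true, fun i hi => ?_⟩
    have h9 := ofDigits_eq_one h8 (i - (n + 1))
    rw [Nat.sub_add_cancel hi] at h9
    unfold dg at h9
    cases hyi : y i <;> simp_all

theorem ev_of_ne {x y : ℕ → Bool} (hne : x ≠ y) (h : bex x = bex y) : x ∈ Ev ∧ y ∈ Ev := by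
  classical
  have h1 : ∃ n, x n ≠ y n := by
    by_contra hcon
    push Not at hcon
    exact hne (funext hcon)
  have h2 : Ag (Nat.find h1) x y := fun i hi => not_not.1 (Nat.find_min h1 hi)
  have h3 := Nat.find_spec h1
  cases hx : x (Nat.find h1) with
  | true =>
    have hy : y (Nat.find h1) = false := by
      cases hy : y (Nat.find h1)
      · rfl
      · exact absurd (hx.trans hy.symm) h3
    exact ev_of_lt h2 hx hy h
  | false =>
    have hy : y (Nat.find h1) = true := by
      cases hy : y (Nat.find h1)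
      · exact absurd (hx.trans hy.symm) h3
      · rfl
    exact (ev_of_lt h2.symm hy hx h.symm).symm

theorem injOn_bex : InjOn bex Evᶜ := by
  intro x hx y _ h
  by_contra hne
  exact hx (ev_of_ne hne h).1

theorem preimage_image_diff (A : Set (ℕ → Bool)) : bex ⁻¹' (bex '' A) \ A ⊆ Ev := by
  rintro x ⟨⟨y, hy, hyx⟩, hx⟩
  refine (ev_of_ne ?_ hyx).2
  rintro rfl
  exact hx hy

/-! ## Hull operations -/

open Pool.H46Hull in
theorem lop_iff {D : Set (Set (ℕ → Bool))} {D' : Set (Set ℝ)}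
    (h1 : ∀ A' ∈ D', A' ⊆ Icc 0 1 ∧ MeasurableSet A' ∧ bex ⁻¹' A' ∈ D)
    (h2 : ∀ A ∈ D, MeasurableSet A ∧ bex '' A ∈ D') :
    (∃ φ, HC.HullOp2 D φ) ↔ ∃ φ, IsMonotoneGdeltaHullOp D' φ := by
  constructor
  · rintro ⟨φ, hφ, hmono⟩
    refine ⟨fun A' => Icc 0 1 \ bex '' (φ (bex ⁻¹' A'))ᶜ, fun A' hA' => ?_, fun A' hA' A'' hA'' hs => ?_⟩
    · obtain ⟨hI, hm, hD⟩ := h1 A' hA'
      obtain ⟨hG, hsub, hnull⟩ := hφ _ hD
      have hGd : IsGδ (Icc 0 1 \ bex '' (φ (bex ⁻¹' A'))ᶜ) := by
        obtain ⟨U, hU, hUe⟩ := hG.eq_iInter_nat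
        have h3 : Icc (0 : ℝ) 1 \ bex '' (φ (bex ⁻¹' A'))ᶜ = Icc 0 1 ∩ ⋂ n, (bex '' (U n)ᶜ)ᶜ := by
          rw [hUe, compl_iInter, image_iUnion, diff_eq, compl_iUnion]
        rw [h3]
        refine isClosed_Icc.isGδ.inter (IsGδ.iInter_of_isOpen fun n => ?_)
        rw [isOpen_compl_iff]
        exact ((hU n).isClosed_compl.isCompact.image continuous_bex).isClosed
      have hAH : A' ⊆ Icc 0 1 \ bex '' (φ (bex ⁻¹' A'))ᶜ := by
        intro t ht
        refine ⟨hI ht, ?_⟩
        rintro ⟨x, hx, rfl⟩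
        exact hx (hsub ht)
      refine ⟨⟨diff_subset, hGd⟩, hAH, diff_subset, ?_⟩
      have h3 : volume ((Icc 0 1 \ bex '' (φ (bex ⁻¹' A'))ᶜ) \ A') = 0 := by
        have h4 := coin_preimage (hGd.measurableSet.diff hm)
        have h5 : ((Icc 0 1 \ bex '' (φ (bex ⁻¹' A'))ᶜ) \ A') ∩ Icc 0 1 =
            (Icc 0 1 \ bex '' (φ (bex ⁻¹' A'))ᶜ) \ A' :=
          inter_eq_left.2 (diff_subset.trans diff_subset)
        rw [h5] at h4
        rw [← h4]
        refine measure_mono_null ?_ hnull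
        rintro x ⟨⟨-, hx1⟩, hx2⟩
        refine ⟨?_, hx2⟩
        by_contra hcon
        exact hx1 ⟨x, hcon, rfl⟩
      refine le_antisymm ?_ (measure_mono hAH)
      calc volume (Icc 0 1 \ bex '' (φ (bex ⁻¹' A'))ᶜ)
          ≤ volume (A' ∪ (Icc 0 1 \ bex '' (φ (bex ⁻¹' A'))ᶜ) \ A') :=
            measure_mono (by rw [union_diff_self]; exact subset_union_right)
        _ ≤ volume A' + volume ((Icc 0 1 \ bex '' (φ (bex ⁻¹' A'))ᶜ) \ A') := measure_union_le _ _
        _ = volume A' := by rw [h3, add_zero]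
    · have h3 := hmono _ (h1 A' hA').2.2 _ (h1 A'' hA'').2.2 (preimage_mono hs)
      exact diff_subset_diff_right (image_mono (compl_subset_compl.2 h3))
  · rintro ⟨ψ, hψ, hmono⟩
    refine ⟨fun A => bex ⁻¹' ψ (bex '' A), fun A hA => ?_, fun A hA A' hA' hs => ?_⟩
    · obtain ⟨hm, hD⟩ := h2 A hA
      obtain ⟨⟨hI, hG⟩, hsub, -, hvol⟩ := hψ _ hD
      have hm' := (h1 _ hD).2.1
      refine ⟨hG.preimage continuous_bex, (subset_preimage_image bex A).trans (preimage_mono hsub),
        ?_⟩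
      have h3 : volume (ψ (bex '' A) \ bex '' A) = 0 := by
        rw [measure_diff hsub hm'.nullMeasurableSet, hvol, tsub_self]
        refine ne_top_of_le_ne_top ?_ (measure_mono (h1 _ hD).1)
        simp
      have h4 : bex ⁻¹' ψ (bex '' A) \ A ⊆ bex ⁻¹' (ψ (bex '' A) \ bex '' A) ∪ Ev := by
        rintro x ⟨hx1, hx2⟩
        by_cases hx : x ∈ bex ⁻¹' (bex '' A)
        · exact Or.inr (preimage_image_diff A ⟨hx, hx2⟩)
        · exact Or.inl ⟨hx1, hx⟩
      refine measure_mono_null h4 (measure_union_null ?_ (coin_countable countable_Ev))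
      rw [coin_preimage (hG.measurableSet.diff hm')]
      exact measure_mono_null inter_subset_left h3
    · exact preimage_mono (hmono _ (h2 A hA).2 _ (h2 A' hA').2 (image_mono hs))

open Pool.H46Hull in
theorem hullOp2_bor : (∃ φ, HC.HullOp2 HC.Bor2 φ) ↔ ∃ φ, IsMonotoneGdeltaHullOp BorelSets φ := by
  refine lop_iff (fun A' hA' => ⟨hA'.1, hA'.2, continuous_bex.measurable hA'.2⟩) fun A hA => ?_
  replace hA : MeasurableSet A := hA
  refine ⟨hA, image_subset_iff.2 fun x _ => bex_mem x, ?_⟩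
  have hEv : MeasurableSet Ev := countable_Ev.measurableSet
  have h1 : bex '' A = bex '' (A \ Ev) ∪ bex '' (A ∩ Ev) := by
    rw [← image_union, diff_union_inter]
  rw [h1]
  refine MeasurableSet.union ?_ ((countable_Ev.mono inter_subset_right).image _).measurableSet
  exact (MeasurableSet.diff hA hEv).image_of_measurable_injOn continuous_bex.measurable
    (injOn_bex.mono fun x hx => hx.2)

open Pool.H46Hull in
theorem hullOp2_fsg : (∃ φ, HC.HullOp2 HC.Fsg2 φ) ↔ ∃ φ, IsMonotoneGdeltaHullOp FsigmaSets φ := by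
  refine lop_iff ?_ ?_
  · rintro A' ⟨hI, F, hF, rfl⟩
    refine ⟨hI, MeasurableSet.iUnion fun n => (hF n).measurableSet, fun n => bex ⁻¹' F n,
      fun n => (hF n).preimage continuous_bex, preimage_iUnion⟩
  · rintro A ⟨F, hF, rfl⟩
    refine ⟨MeasurableSet.iUnion fun n => (hF n).measurableSet,
      image_subset_iff.2 fun x _ => bex_mem x, fun n => bex '' F n, fun n => ?_, image_iUnion⟩
    exact ((hF n).isCompact.image continuous_bex).isClosed

end CN
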