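import Pool.Agent.H92.CN.Cnd
import Pool.Agent.H92.CN.Opn
import Pool.Agent.H26.BV.Zfc

/-!
# POS: a model of ZFC with a monotone `G_δ` hull operation on the Borel sets
-/

set_option autoImplicit false

namespace CN

open BV PK HM PM HC

variable {B : Type} [CompleteBooleanAlgebra B]

/-! ## Values -/

theorem hv_isGdelta (x : BSet B) : HV fun U : UF B => IsGdelta (MU.E U) (om U) (MU.mk U x) := by
  unfold IsGdelta
  refine HV.ex fun f => (hv_isSeq f).and (HV.and ?_ ?_)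
  · exact HV.all fun n => HV.all fun a => (hv_om n).imp ((hv_app f n a).imp (hv_isOpenR a))
  · exact HV.all fun z => (HV.mem z x).iff ((hv_isReal z).and (HV.all fun n => HV.all fun a =>
      (hv_om n).imp ((hv_app f n a).imp (HV.mem z a))))

theorem hv_injOn (g : BSet B) {X Y : ∀ U : UF B, MU U → Prop}
    (hX : ∀ x : BSet B, HV fun U => X U (MU.mk U x))
    (hY : ∀ x : BSet B, HV fun U => Y U (MU.mk U x)) :
    HV fun U : UF B => InjOn (MU.E U) (MU.mk U g) (X U) (Y U) := by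
  unfold InjOn
  refine HV.and ?_ (HV.and ?_ ?_)
  · exact HV.all fun x => (hX x).imp (HV.ex fun y => (hY y).and (hv_app g x y))
  · exact HV.all fun x => HV.all fun y => HV.all fun y' => (hX x).imp ((hv_app g x y).imp
      ((hv_app g x y').imp (HV.eq y y')))
  · exact HV.all fun x => HV.all fun x' => HV.all fun y => (hX x).imp ((hX x').imp
      ((hv_app g x y).imp ((hv_app g x' y).imp (HV.eq x x'))))

theorem hv_isLev (n k u s : BSet B) :
    HV fun U : UF B => IsLev (MU.E U) (MU.mk U n) (MU.mk U k) (MU.mk U u) (MU.mk U s) := by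
  unfold IsLev
  exact HV.and (HV.all fun z => (HV.mem z s).imp (HV.mem z n)) (hv_agree k s u)

theorem hv_meets (n s K : BSet B) :
    HV fun U : UF B => Meets (MU.E U) (MU.mk U n) (MU.mk U s) (MU.mk U K) := by
  unfold Meets
  exact HV.ex fun x => (HV.mem x K).and (hv_agree n x s)

theorem hv_isNullC (K : BSet B) : HV fun U : UF B => IsNullC (MU.E U) (om U) (MU.mk U K) := by
  unfold IsNullC
  refine HV.all fun k => HV.all fun u => (hv_om k).imp ((hv_isReal u).imp (HV.ex fun n =>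
    (hv_om n).and ((HV.mem k n).and (HV.ex fun g => ?_))))
  exact hv_injOn g (X := fun U s => IsLev (MU.E U) (MU.mk U n) (MU.mk U k) (MU.mk U u) s ∧
      Meets (MU.E U) (MU.mk U n) s (MU.mk U K))
    (Y := fun U s => IsLev (MU.E U) (MU.mk U n) (MU.mk U k) (MU.mk U u) s ∧
      ¬ Meets (MU.E U) (MU.mk U n) s (MU.mk U K))
    (fun s => (hv_isLev n k u s).and (hv_meets n s K))
    (fun s => (hv_isLev n k u s).and (hv_meets n s K).not)

theorem hv_isHull (A H : BSet B) :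
    HV fun U : UF B => IsHull (MU.E U) (om U) (MU.mk U A) (MU.mk U H) := by
  unfold IsHull
  refine HV.and (HV.all fun x => (HV.mem x A).imp (HV.mem x H)) (HV.all fun K =>
    (hv_isClosedR K).imp (HV.imp (HV.all fun x => (HV.mem x K).imp ((HV.mem x H).and
      (HV.mem x A).not)) (hv_isNullC K)))

/-! ## Null sets -/

theorem meets_iff (V : UF B) (n : ℕ) (s : Finset ℕ) (K : Set (ℕ → Bool)) :
    Meets (MU.E V) (nn V n) (MU.mk V (fnm s)) (MU.mk V (chkS B K)) ↔ Mt n s K := by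
  constructor
  · rintro ⟨x, hx, hxs⟩
    refine ball_chkS (Q := fun V x => Agree (MU.E V) (nn V n) x (MU.mk V (fnm s)) → Mt n s K)
      (fun x => (hv_agree (chk B (n : Ordinal.{0})) x (fnm s)).imp (HV.const (Mt n s K))) ⊤ ?_ V
      V.top_mem x hx hxs
    intro V _ x hx hxs
    exact ⟨x, hx, (agree_snm V n x (fs s)).1 hxs⟩
  · rintro ⟨x, hx, hxs⟩
    exact ⟨_, (E_chkS V K x).2 hx, (agree_snm V n x (fs s)).2 hxs⟩

theorem fs_inj {s t : Finset ℕ} (h : fs s = fs t) : s = t := by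
  ext i
  have h1 := congrFun h i
  unfold fs at h1
  simpa using h1

theorem fnm_inj (V : UF B) {s t : Finset ℕ} (h : MU.mk V (fnm s) = MU.mk V (fnm t)) : s = t :=
  fs_inj (snm_inj V h)

theorem isLev_iff (V : UF B) (n k : ℕ) (u : MU V) (u' : ℕ → Bool)
    (hu : Agree (MU.E V) (nn V k) (MU.mk V (snm u')) u) (s : Finset ℕ) :
    IsLev (MU.E V) (nn V n) (nn V k) u (MU.mk V (fnm s)) ↔ s ∈ Lev n k u' := by
  rw [mem_Lev]
  unfold IsLev
  refine and_congr ?_ ?_
  · constructor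
    · intro h i hi
      rw [Finset.mem_range, ← E_nn V]
      exact h _ ((E_fnm V s i).2 hi)
    · intro h z hz
      obtain ⟨i, hi, rfl⟩ := mem_fnm V s z hz
      exact (E_nn V i n).2 (Finset.mem_range.1 (h hi))
  · rw [← agree_snm V k (fs s) u']
    exact ⟨fun h => agree_trans h (agree_symm hu), fun h => agree_trans h hu⟩

/-- a real of the quotient has the same elements below `k` as a real of the ground model -/
theorem exists_agree (V : UF B) (k : ℕ) (u : MU V) :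
    ∃ u' : ℕ → Bool, Agree (MU.E V) (nn V k) (MU.mk V (snm u')) u := by
  classical
  refine ⟨fun i => decide (MU.E V (nn V i) u), fun z hz => ?_⟩
  obtain ⟨i, hi, rfl⟩ := mem_nn V k z hz
  rw [E_snm, decide_eq_true_iff]

open Classical in
theorem isNullC_chkS {K : Set (ℕ → Bool)} (hK : Nullc K) (V : UF B) :
    IsNullC (MU.E V) (om V) (MU.mk V (chkS B K)) := by
  intro k u hk hu
  refine ball_w (Q := fun V k => ∀ u, IsReal (MU.E V) (om V) u → ∃ n, MU.E V n (om V) ∧
    MU.E V k n ∧ ∃ g, InjOn (MU.E V) g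
      (fun s => IsLev (MU.E V) n k u s ∧ Meets (MU.E V) n s (MU.mk V (chkS B K)))
      (fun s => IsLev (MU.E V) n k u s ∧ ¬ Meets (MU.E V) n s (MU.mk V (chkS B K))))
    (fun k => ?_) ⊤ ?_ V V.top_mem k hk u hu
  · refine HV.all fun u => (hv_isReal u).imp (HV.ex fun n => (hv_om n).and ((HV.mem k n).and
      (HV.ex fun g => ?_)))
    exact hv_injOn g (X := fun U s => IsLev (MU.E U) (MU.mk U n) (MU.mk U k) (MU.mk U u) s ∧
        Meets (MU.E U) (MU.mk U n) s (MU.mk U (chkS B K)))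
      (Y := fun U s => IsLev (MU.E U) (MU.mk U n) (MU.mk U k) (MU.mk U u) s ∧
        ¬ Meets (MU.E U) (MU.mk U n) s (MU.mk U (chkS B K)))
      (fun s => (hv_isLev n k u s).and (hv_meets n s _))
      (fun s => (hv_isLev n k u s).and (hv_meets n s _).not)
  clear hk hu u k V
  intro V _ k u _
  obtain ⟨u', hu'⟩ := exists_agree V k u
  obtain ⟨n, hn, hcard⟩ := hK k u'
  set F₁ := (Lev n k u').filter fun s => Mt n s K with hF₁
  set F₂ := (Lev n k u').filter fun s => ¬ Mt n s K with hF₂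
  obtain ⟨g⟩ : Nonempty ({s // s ∈ F₁} ↪ {s // s ∈ F₂}) := by
    apply Function.Embedding.nonempty_of_card_le
    simpa using hcard
  have happ : ∀ (V : UF B) (s : {s // s ∈ F₁}), App (MU.E V) (MU.mk V (BSet.mk {s // s ∈ F₁}
      (fun s => opr (fnm s.1) (fnm (g s).1)) fun _ => ⊤)) (MU.mk V (fnm s.1))
      (MU.mk V (fnm (g s).1)) := fun V s =>
    app_mk (X := fun s : {s // s ∈ F₁} => fnm s.1) (Y := fun s => fnm (g s).1) (a := fun _ => ⊤)
      V s V.top_mem
  set gn : BSet B := BSet.mk {s // s ∈ F₁} (fun s => opr (fnm s.1) (fnm (g s).1)) fun _ => ⊤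
    with hgn
  have hball : ∀ {Q : ∀ U : UF B, MU U → MU U → Prop}
      (_ : ∀ x y : BSet B, HV fun U => Q U (MU.mk U x) (MU.mk U y))
      (_ : ∀ (V : UF B) (s : {s // s ∈ F₁}), Q V (MU.mk V (fnm s.1)) (MU.mk V (fnm (g s).1)))
      (V : UF B) (x y : MU V), App (MU.E V) (MU.mk V gn) x y → Q V x y := by
    intro Q hQ h V x y hxy
    exact ball_app (X := fun s : {s // s ∈ F₁} => fnm s.1) (Y := fun s => fnm (g s).1)
      (a := fun _ => ⊤) hQ ⊤ (fun V _ s _ => h V s) V V.top_mem x y hxy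
  refine ⟨nn V n, E_nn_om V n, (E_nn V k n).2 hn, MU.mk V gn, ?_, ?_, ?_⟩
  · rintro x ⟨hx, hxK⟩
    obtain ⟨s, hs, rfl⟩ := exists_fnm V n x hx.1
    have hs1 : s ∈ F₁ := Finset.mem_filter.2
      ⟨(isLev_iff V n k u u' hu' s).1 hx, (meets_iff V n s K).1 hxK⟩
    have hs2 := Finset.mem_filter.1 (g ⟨s, hs1⟩).2
    refine ⟨_, ⟨(isLev_iff V n k u u' hu' _).2 hs2.1, fun h => hs2.2 ((meets_iff V n _ K).1 h)⟩,
      happ V ⟨s, hs1⟩⟩
  · intro x y y' _ hxy hxy'
    refine hball (Q := fun V x y => ∀ y', App (MU.E V) (MU.mk V gn) x y' → y = y')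
      (fun x y => HV.all fun y' => (hv_app gn x y').imp (HV.eq y y')) ?_ V x y hxy y' hxy'
    intro V s y' hy'
    refine hball (Q := fun V x y => MU.mk V (fnm s.1) = x → MU.mk V (fnm (g s).1) = y)
      (fun x y => (HV.eq _ x).imp (HV.eq _ y)) ?_ V _ y' hy' rfl
    intro V t hst
    have h1 : s = t := Subtype.ext (fnm_inj V hst)
    rw [h1]
  · intro x x' y _ _ hxy hxy'
    refine hball (Q := fun V x y => ∀ x', App (MU.E V) (MU.mk V gn) x' y → x = x')
      (fun x y => HV.all fun x' => (hv_app gn x' y).imp (HV.eq x x')) ?_ V x y hxy x' hxy'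
    intro V s x' hx'
    refine hball (Q := fun V x y => MU.mk V (fnm (g s).1) = y → MU.mk V (fnm s.1) = x)
      (fun x y => (HV.eq _ y).imp (HV.eq _ x)) ?_ V x' _ hx' rfl
    intro V t hst
    have h1 : g s = g t := Subtype.ext (fnm_inj V hst)
    rw [g.injective h1]

/-! ## The generic hull operation -/

/-- name of the generic hull operation -/
noncomputable def hulN (e : Cond → B) : BSet B :=
  BSet.mk {z : Cond × Set (ℕ → Bool) // z.2 ∈ z.1.dom}
    (fun z => opr (chkS B z.1.2) (chkS B (z.1.1.f z.1.2))) fun z => e z.1.1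

variable {e : Cond → B}

theorem app_hulN {p : Cond} {A : Set (ℕ → Bool)} (hA : A ∈ p.dom) (V : UF B) (hV : e p ∈ V) :
    App (MU.E V) (MU.mk V (hulN e)) (MU.mk V (chkS B A)) (MU.mk V (chkS B (p.f A))) :=
  app_mk (X := fun z : {z : Cond × Set (ℕ → Bool) // z.2 ∈ z.1.dom} => chkS B z.1.2)
    (Y := fun z => chkS B (z.1.1.f z.1.2)) (a := fun z => e z.1.1) V ⟨(p, A), hA⟩ hV

theorem ball_hulN {Q : ∀ U : UF B, MU U → MU U → Prop}
    (hQ : ∀ x y : BSet B, HV fun U => Q U (MU.mk U x) (MU.mk U y)) (b : B)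
    (h : ∀ V : UF B, b ∈ V → ∀ p A, A ∈ p.dom → e p ∈ V →
      Q V (MU.mk V (chkS B A)) (MU.mk V (chkS B (p.f A)))) (V : UF B) (hb : b ∈ V) (x y : MU V)
    (hxy : App (MU.E V) (MU.mk V (hulN e)) x y) : Q V x y :=
  ball_app (X := fun z : {z : Cond × Set (ℕ → Bool) // z.2 ∈ z.1.dom} => chkS B z.1.2)
    (Y := fun z => chkS B (z.1.1.f z.1.2)) (a := fun z => e z.1.1) hQ b
    (fun V hV z hz => h V hV z.1.1 z.1.2 z.2 hz) V hb x y hxy

theorem hull_mono (he : DenseEmb Cond B e) (V : UF B) (A A' H H' : MU V)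
    (h : App (MU.E V) (MU.mk V (hulN e)) A H) (h' : App (MU.E V) (MU.mk V (hulN e)) A' H')
    (hAA : ∀ x, MU.E V x A → MU.E V x A') : ∀ x, MU.E V x H → MU.E V x H' := by
  refine ball_hulN (e := e) (Q := fun V A H => ∀ A' H', App (MU.E V) (MU.mk V (hulN e)) A' H' →
    (∀ x, MU.E V x A → MU.E V x A') → ∀ x, MU.E V x H → MU.E V x H') (fun A H => ?_) ⊤ ?_ V
    V.top_mem A H h A' H' h' hAA
  · exact HV.all fun A' => HV.all fun H' => (hv_app _ A' H').imp (HV.imp (HV.all fun x =>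
      (HV.mem x A).imp (HV.mem x A')) (HV.all fun x => (HV.mem x H).imp (HV.mem x H')))
  clear h h' hAA A A' H H' V
  intro V _ p A hA hpV A' H' h' hAA
  refine ball_hulN (e := e) (Q := fun V A' H' => (∀ x, MU.E V x (MU.mk V (chkS B A)) →
    MU.E V x A') → ∀ x, MU.E V x (MU.mk V (chkS B (p.f A))) → MU.E V x H') (fun A' H' => ?_)
    (e p) ?_ V hpV A' H' h' hAA
  · exact HV.imp (HV.all fun x => (HV.mem x _).imp (HV.mem x A')) (HV.all fun x =>
      (HV.mem x _).imp (HV.mem x H'))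
  clear hAA h' H' A' hpV
  intro V hpV p' A' hA' hpV' hAA
  have h1 : A ⊆ A' := (sub_chkS V).1 hAA
  have h2 : e p ⊓ e p' ≠ ⊥ := V.ne_bot_of_mem (V.inf_mem hpV hpV')
  obtain ⟨r, hr, hr'⟩ := he.compat p p' h2
  refine (sub_chkS V).2 ?_
  rw [← hr.2 A hA, ← hr'.2 A' hA']
  exact r.mono A (hr.1 hA) A' (hr'.1 hA') h1

theorem hull_exists (he : DenseEmb Cond B e) (V : UF B) (A : MU V)
    (hA : IsBorel (MU.E V) (om V) A) : ∃ H, App (MU.E V) (MU.mk V (hulN e)) A H ∧
      IsGdelta (MU.E V) (om V) H ∧ IsHull (MU.E V) (om V) A H := by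
  have hQ : ∀ A : BSet B, HV fun V : UF B => ∃ H, App (MU.E V) (MU.mk V (hulN e)) (MU.mk V A) H ∧
      IsGdelta (MU.E V) (om V) H ∧ IsHull (MU.E V) (om V) (MU.mk V A) H := fun A =>
    HV.ex fun H => (hv_app _ A H).and ((hv_isGdelta H).and (hv_isHull A H))
  refine ball_borN (Q := fun V A => ∃ H, App (MU.E V) (MU.mk V (hulN e)) A H ∧
      IsGdelta (MU.E V) (om V) H ∧ IsHull (MU.E V) (om V) A H) hQ ⊤ ?_ V V.top_mem A
    (mem_borN_of_isBorel Cond.sClosed he V A hA)
  clear hA A V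
  intro V _ A hA
  refine of_dense_top he (hQ (chkS B A)) (fun p => ?_) V
  obtain ⟨q, hq, hqA⟩ := p.exists_ext A hA
  refine ⟨q, hq, fun V hV => ⟨_, app_hulN hqA V hV, isGdelta_chkS Cond.sClosed he (q.gd A hqA) V,
    (sub_chkS V).2 (q.sub A hqA), fun K hK hKH => ?_⟩⟩
  obtain ⟨K, rfl⟩ := MU.mk_surj V K
  have hv : HV fun V : UF B => IsClosedR (MU.E V) (om V) (MU.mk V K) ∧
      ∀ x, MU.E V x (MU.mk V K) → MU.E V x (MU.mk V (chkS B (q.f A))) ∧
        ¬ MU.E V x (MU.mk V (chkS B A)) :=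
    (hv_isClosedR K).and (HV.all fun x => (HV.mem x K).imp ((HV.mem x _).and (HV.mem x _).not))
  refine of_dense_top he (hv.imp (hv_isNullC K)) (fun p' => ?_) V ⟨hK, hKH⟩
  obtain ⟨q', hq', h1 | h1⟩ := exists_decide he hv p'
  swap
  · exact ⟨q', hq', fun V hV h2 => absurd h2 (h1 V hV)⟩
  obtain ⟨r, hr, K', hK', h2⟩ := closed_chk Cond.sClosed he K fun V hV => (h1 V hV).1
  refine ⟨r, hr.trans hq', fun V hV _ => ?_⟩
  have h3 := (h1 V (V.mem_of_le hV (he.mono _ _ hr))).2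
  rw [h2 V hV]
  rw [h2 V hV] at h3
  refine isNullC_chkS (nullc_of_coin hK' (MeasureTheory.measure_mono_null ?_ (q.null A hqA))) V
  intro x hx
  have h4 := h3 _ ((E_chkS V K' x).2 hx)
  rw [E_chkS, E_chkS] at h4
  exact h4

/-- there is a model of ZFC with a monotone `G_δ` hull operation on the Borel sets -/
theorem exists_model : ∃ (M : Type 1) (E : M → M → Prop), IsZFC E ∧ ∃ w, PK.IsOmega E w ∧
    ∃ f, IsHullOp E w (IsBorel E w) f := by
  obtain ⟨B, iB, e, he⟩ := exists_denseEmb Cond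
  have hB : Nontrivial B := ⟨⟨e Cond.empty, ⊥, he.ne_bot _⟩⟩
  obtain ⟨W, -⟩ := UF.exists_mem (B := B) (a := ⊤) top_ne_bot
  refine ⟨MU W, MU.E W, isZFC W, om W, isOmega_om W, MU.mk W (hulN e), ?_, ?_⟩
  · exact fun A hA => hull_exists he W A hA
  · intro A A' H H' _ _ h h' hAA
    exact hull_mono he W A A' H H' h h' hAA

end CN
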