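import Pool.Agent.H71.PM.Nms
import Pool.Agent.H26.BV.Rop

/-!
# SC: sigma-closed forcing
-/

set_option autoImplicit false

namespace CN

open BV PK HM PM

/-- every descending sequence of conditions has a lower bound -/
def SClosed (P : Type) [Preorder P] : Prop :=
  ∀ s : ℕ → P, (∀ n, s (n + 1) ≤ s n) → ∃ q, ∀ n, q ≤ s n

section Poset

variable {P : Type} [Preorder P]

/-- countably many open sets of conditions, dense below `p`, have a common element below `p` -/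
theorem SClosed.dense (h : SClosed P) {p : P} (D : ℕ → P → Prop)
    (hm : ∀ n q r, r ≤ q → D n q → D n r) (hD : ∀ n q, q ≤ p → ∃ r, r ≤ q ∧ D n r) :
    ∃ q, q ≤ p ∧ ∀ n, D n q := by
  choose f hf1 hf2 using hD
  let s : ℕ → {q : P // q ≤ p} := fun n => Nat.rec ⟨p, le_rfl⟩
    (fun n q => ⟨f n q.1 q.2, (hf1 n q.1 q.2).trans q.2⟩) n
  have hs : ∀ n, (s (n + 1)).1 ≤ (s n).1 := fun n => hf1 n (s n).1 (s n).2
  obtain ⟨q, hq⟩ := h (fun n => (s n).1) hs
  exact ⟨q, hq 0, fun n => hm n _ _ (hq (n + 1)) (hf2 n (s n).1 (s n).2)⟩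

/-- the same for a countable index set -/
theorem SClosed.dense' (h : SClosed P) {κ : Type} [Countable κ] {p : P} (D : κ → P → Prop)
    (hm : ∀ n q r, r ≤ q → D n q → D n r) (hD : ∀ n q, q ≤ p → ∃ r, r ≤ q ∧ D n r) :
    ∃ q, q ≤ p ∧ ∀ n, D n q := by
  rcases isEmpty_or_nonempty κ with hκ | hκ
  · exact ⟨p, le_rfl, fun n => (IsEmpty.false n).elim⟩
  obtain ⟨g, hg⟩ := exists_surjective_nat κ
  obtain ⟨q, hq, h1⟩ := h.dense (fun n => D (g n)) (fun n => hm (g n)) fun n => hD (g n)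
  refine ⟨q, hq, fun k => ?_⟩
  obtain ⟨n, rfl⟩ := hg k
  exact h1 n

end Poset

section Emb

variable {P : Type} [Preorder P] {B : Type} [CompleteBooleanAlgebra B] {e : P → B}

theorem le_of_dense (he : DenseEmb P B e) {b c : B}
    (h : ∀ q, e q ≤ b → ∃ r, r ≤ q ∧ e r ≤ c) : b ≤ c := by
  by_contra hcon
  have h1 : b ⊓ cᶜ ≠ ⊥ := fun h0 => hcon (by rwa [← sdiff_eq, sdiff_eq_bot_iff] at h0)
  obtain ⟨q, hq⟩ := he.dense _ h1
  obtain ⟨r, hr, hrc⟩ := h q (hq.trans inf_le_left)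
  apply he.ne_bot r
  rw [eq_bot_iff, ← inf_compl_eq_bot (a := c)]
  exact le_inf hrc ((he.mono r q hr).trans (hq.trans inf_le_right))

/-- density argument for a property with a Boolean value -/
theorem of_dense (he : DenseEmb P B e) {Q : UF B → Prop} (hQ : HV Q) {b : B}
    (h : ∀ q, e q ≤ b → ∃ r, r ≤ q ∧ ∀ V : UF B, e r ∈ V → Q V) (V : UF B) (hV : b ∈ V) : Q V := by
  obtain ⟨c, hc⟩ := hQ
  refine (hc V).1 (V.mem_of_le hV (le_of_dense he fun q hq => ?_))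
  obtain ⟨r, hr, h1⟩ := h q hq
  exact ⟨r, hr, UF.le_of_forall fun U hU => (hc U).2 (h1 U hU)⟩

/-- the same below a condition -/
theorem of_dense_cond (he : DenseEmb P B e) {Q : UF B → Prop} (hQ : HV Q) {p : P}
    (h : ∀ q, q ≤ p → ∃ r, r ≤ q ∧ ∀ V : UF B, e r ∈ V → Q V) (V : UF B) (hV : e p ∈ V) :
    Q V := by
  refine of_dense he hQ (b := e p) (fun q hq => ?_) V hV
  have h1 : e q ⊓ e p ≠ ⊥ := by rw [inf_eq_left.2 hq]; exact he.ne_bot q
  obtain ⟨q', hq1, hq2⟩ := he.compat q p h1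
  obtain ⟨r, hr, h2⟩ := h q' hq2
  exact ⟨r, hr.trans hq1, h2⟩

/-- the same without a side condition -/
theorem of_dense_top (he : DenseEmb P B e) {Q : UF B → Prop} (hQ : HV Q)
    (h : ∀ q, ∃ r, r ≤ q ∧ ∀ V : UF B, e r ∈ V → Q V) (V : UF B) : Q V :=
  of_dense he hQ (b := ⊤) (fun q _ => h q) V V.top_mem

/-- some condition decides a property -/
theorem exists_decide (he : DenseEmb P B e) {Q : UF B → Prop} (hQ : HV Q) (p : P) :
    ∃ q, q ≤ p ∧ ((∀ V : UF B, e q ∈ V → Q V) ∨ ∀ V : UF B, e q ∈ V → ¬ Q V) := by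
  obtain ⟨c, hc⟩ := hQ
  obtain ⟨q, hq, h1⟩ := he.exists_le_or (p := p) (a := c) (b := cᶜ) (by simp)
  refine ⟨q, hq, h1.imp (fun h V hV => (hc V).1 (V.mem_of_le hV h)) fun h V hV h2 => ?_⟩
  exact (V.compl_mem_iff.1 (V.mem_of_le hV h)) ((hc V).2 h2)

/-- a condition which forces a disjunction of properties: some stronger condition forces one of them -/
theorem exists_of_ex (he : DenseEmb P B e) {ι : Sort*} {Q : ι → UF B → Prop}
    (hQ : ∀ i, HV (Q i)) {p : P} (h : ∀ V : UF B, e p ∈ V → ∃ i, Q i V) :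
    ∃ q, q ≤ p ∧ ∃ i, ∀ V : UF B, e q ∈ V → Q i V := by
  choose c hc using hQ
  have h1 : e p ⊓ (⨆ i, c i) ≠ ⊥ := by
    intro h0
    obtain ⟨V, hV⟩ := UF.exists_mem (he.ne_bot p)
    obtain ⟨i, hi⟩ := h V hV
    have h2 : (⨆ i, c i) ∈ V := V.mem_of_le ((hc i V).2 hi) (le_iSup c i)
    have h3 := V.inf_mem hV h2
    rw [h0] at h3
    exact V.bot_notMem h3
  obtain ⟨q, hq, hqc⟩ := he.exists_le_of_inf_ne_bot h1
  obtain ⟨r, hr, i, hi⟩ := he.exists_le_of_le_iSup hqc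
  exact ⟨r, hr.trans hq, i, fun V hV => (hc i V).1 (V.mem_of_le hV hi)⟩

/-- countably many properties are decided by some condition -/
theorem decide_all (h : SClosed P) (he : DenseEmb P B e) {κ : Type} [Countable κ]
    {Q : κ → UF B → Prop} (hQ : ∀ i, HV (Q i)) (p : P) :
    ∃ q, q ≤ p ∧ ∃ X : κ → Bool, ∀ i, ∀ V : UF B, e q ∈ V → (Q i V ↔ X i = true) := by
  classical
  obtain ⟨q, hq, h1⟩ := h.dense' (p := p)
    (fun i q => (∀ V : UF B, e q ∈ V → Q i V) ∨ ∀ V : UF B, e q ∈ V → ¬ Q i V) (by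
      rintro i q r hr (h1 | h1)
      · exact Or.inl fun V hV => h1 V (V.mem_of_le hV (he.mono _ _ hr))
      · exact Or.inr fun V hV => h1 V (V.mem_of_le hV (he.mono _ _ hr))) fun i q _ =>
      exists_decide he (hQ i) q
  refine ⟨q, hq, fun i => decide (∀ V : UF B, e q ∈ V → Q i V), fun i V hV => ?_⟩
  rw [decide_eq_true_iff]
  rcases h1 i with h2 | h2
  · exact ⟨fun _ => h2, fun _ => h2 V hV⟩
  · exact ⟨fun h3 => absurd h3 (h2 V hV), fun h3 => h3 V hV⟩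

/-- countable choice below a condition -/
theorem choose_all (h : SClosed P) (he : DenseEmb P B e) {κ : Type} [Countable κ] {ι : Type}
    {Q : κ → ι → UF B → Prop} {p : P}
    (hp : ∀ k q, q ≤ p → ∃ r, r ≤ q ∧ ∃ i, ∀ V : UF B, e r ∈ V → Q k i V) :
    ∃ q, q ≤ p ∧ ∃ f : κ → ι, ∀ k, ∀ V : UF B, e q ∈ V → Q k (f k) V := by
  obtain ⟨q, hq, h1⟩ := h.dense' (p := p)
    (fun k q => ∃ i, ∀ V : UF B, e q ∈ V → Q k i V) (by
      rintro k q r hr ⟨i, hi⟩
      exact ⟨i, fun V hV => hi V (V.mem_of_le hV (he.mono _ _ hr))⟩) hp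
  choose f hf using h1
  exact ⟨q, hq, f, hf⟩

end Emb

end CN
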